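import Pool.Agent.H95.MinMaxDefs

/-!
Analysis of the two-level map of the noisy min-max tree game.
-/

namespace Pool.Agent.H95.MinMax

open Filter Topology

noncomputable section

/-- the inner quantity -/
def inner (d : ℕ) (x y z : ℝ) : ℝ :=
  1 - 1 / 2 * (1 - (x + y) / 2) ^ d - 1 / 2 * (1 - (y + z) / 2) ^ d

lemma g_eq (d : ℕ) (x y z : ℝ) : g d x y z = inner d x y z ^ d := rfl

/-- unit interval membership as a conjunction -/
def U01 (x : ℝ) : Prop := 0 ≤ x ∧ x ≤ 1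

lemma U01.half {x y : ℝ} (hx : U01 x) (hy : U01 y) : U01 (1 - (x + y) / 2) := by
  obtain ⟨h1, h2⟩ := hx
  obtain ⟨h3, h4⟩ := hy
  constructor <;> linarith

lemma U01.pow {x : ℝ} (hx : U01 x) (d : ℕ) : U01 (x ^ d) :=
  ⟨pow_nonneg hx.1 d, pow_le_one₀ hx.1 hx.2⟩

lemma inner_mem {d : ℕ} {x y z : ℝ} (hx : U01 x) (hy : U01 y) (hz : U01 z) :
    U01 (inner d x y z) := by
  have h1 := (hx.half hy).pow d
  have h2 := (hy.half hz).pow d
  unfold inner
  constructor <;> linarith [h1.1, h1.2, h2.1, h2.2]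

lemma g_mem {d : ℕ} {x y z : ℝ} (hx : U01 x) (hy : U01 y) (hz : U01 z) :
    U01 (g d x y z) := (inner_mem hx hy hz).pow d

lemma inner_mono {d : ℕ} {x y z x' y' z' : ℝ} (hx' : U01 x')
    (hy' : U01 y') (hz' : U01 z')
    (h1 : x ≤ x') (h2 : y ≤ y') (h3 : z ≤ z') : inner d x y z ≤ inner d x' y' z' := by
  have e1 : (1 - (x' + y') / 2) ^ d ≤ (1 - (x + y) / 2) ^ d :=
    pow_le_pow_left₀ (hx'.half hy').1 (by linarith) d
  have e2 : (1 - (y' + z') / 2) ^ d ≤ (1 - (y + z) / 2) ^ d :=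
    pow_le_pow_left₀ (hy'.half hz').1 (by linarith) d
  unfold inner
  linarith

lemma g_mono {d : ℕ} {x y z x' y' z' : ℝ} (hx : U01 x) (hy : U01 y) (hz : U01 z) (hx' : U01 x')
    (hy' : U01 y') (hz' : U01 z')
    (h1 : x ≤ x') (h2 : y ≤ y') (h3 : z ≤ z') : g d x y z ≤ g d x' y' z' :=
  pow_le_pow_left₀ (inner_mem hx hy hz).1 (inner_mono hx' hy' hz' h1 h2 h3) d

/-- upper bound for differences of powers -/
lemma pow_diff_upper {d : ℕ} {s t M : ℝ} (hs : 0 ≤ s) (ht : 0 ≤ t) (hsM : s ≤ M) (htM : t ≤ M) :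
    |t ^ d - s ^ d| ≤ d * M ^ (d - 1) * |t - s| := by
  have h := abs_pow_sub_pow_le (a := t) (b := s) (n := d)
  have h2 : max |t| |s| ^ (d - 1) ≤ M ^ (d - 1) := by
    apply pow_le_pow_left₀ (le_trans (abs_nonneg _) (le_max_left _ _))
    rw [abs_of_nonneg hs, abs_of_nonneg ht]
    exact max_le htM hsM
  calc |t ^ d - s ^ d| ≤ |t - s| * d * max |t| |s| ^ (d - 1) := h
    _ ≤ |t - s| * d * M ^ (d - 1) := by gcongr
    _ = d * M ^ (d - 1) * |t - s| := by ring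

/-- lower bound for differences of powers -/
lemma pow_diff_lower {d : ℕ} {s t : ℝ} (hs : 0 ≤ s) (hst : s ≤ t) :
    d * s ^ (d - 1) * (t - s) ≤ t ^ d - s ^ d := by
  induction d with
  | zero => simp
  | succ n ih =>
    have e : t ^ (n + 1) - s ^ (n + 1) = t * (t ^ n - s ^ n) + s ^ n * (t - s) := by ring
    have hn : 0 ≤ t ^ n - s ^ n := sub_nonneg.2 (pow_le_pow_left₀ hs hst n)
    have h1 : s * (t ^ n - s ^ n) ≤ t * (t ^ n - s ^ n) := by gcongr
    have h2 : s * (n * s ^ (n - 1) * (t - s)) ≤ s * (t ^ n - s ^ n) := by gcongr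
    have h3 : s * (n * s ^ (n - 1) * (t - s)) = n * s ^ n * (t - s) := by
      rcases n with _ | m
      · simp
      · simp only [Nat.add_sub_cancel]
        ring
    rw [e]
    rw [Nat.add_sub_cancel]
    push_cast
    have h4 : (n : ℝ) * s ^ n * (t - s) ≤ t * (t ^ n - s ^ n) := by
      rw [← h3]
      exact h2.trans h1
    linarith

lemma abs_half_diff {x y x' y' δ : ℝ} (h1 : |x' - x| ≤ δ) (h2 : |y' - y| ≤ δ) :
    |(1 - (x' + y') / 2) - (1 - (x + y) / 2)| ≤ δ := by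
  rw [abs_le] at *
  constructor <;> linarith [h1.1, h1.2, h2.1, h2.2]

/-- Global Lipschitz bound. -/
lemma g_lip {d : ℕ} {x y z x' y' z' δ : ℝ} (hx : U01 x) (hy : U01 y) (hz : U01 z) (hx' : U01 x')
    (hy' : U01 y') (hz' : U01 z')
    (h1 : |x' - x| ≤ δ) (h2 : |y' - y| ≤ δ) (h3 : |z' - z| ≤ δ) :
    |g d x' y' z' - g d x y z| ≤ (d : ℝ) ^ 2 * δ := by
  have hA := inner_mem (d := d) hx hy hz
  have hA' := inner_mem (d := d) hx' hy' hz'
  have e1 := pow_diff_upper (d := d) hA.1 hA'.1 hA.2 hA'.2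
  have e2 := pow_diff_upper (d := d) (hx.half hy).1 (hx'.half hy').1 (hx.half hy).2 (hx'.half hy').2
  have e3 := pow_diff_upper (d := d) (hy.half hz).1 (hy'.half hz').1 (hy.half hz).2 (hy'.half hz').2
  have f2 := abs_half_diff h1 h2
  have f3 := abs_half_diff h2 h3
  simp only [one_pow, mul_one] at e1 e2 e3
  have hd : (0 : ℝ) ≤ d := Nat.cast_nonneg d
  have e2' : |(1 - (x' + y') / 2) ^ d - (1 - (x + y) / 2) ^ d| ≤ d * δ :=
    e2.trans (by gcongr)
  have e3' : |(1 - (y' + z') / 2) ^ d - (1 - (y + z) / 2) ^ d| ≤ d * δ :=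
    e3.trans (by gcongr)
  have hin : |inner d x' y' z' - inner d x y z| ≤ d * δ := by
    unfold inner
    rw [abs_le] at *
    constructor <;> linarith [e2'.1, e2'.2, e3'.1, e3'.2]
  calc |g d x' y' z' - g d x y z| ≤ d * |inner d x' y' z' - inner d x y z| := e1
    _ ≤ d * (d * δ) := by gcongr
    _ = (d : ℝ) ^ 2 * δ := by ring

/-- The numerical requirements on `d`. -/
structure Big (d : ℕ) : Prop where
  big : 1000 ≤ d
  h78 : (d : ℝ) ^ 3 * (7 / 8 : ℝ) ^ (d - 1) ≤ 1 / 8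
  hc : (1 - Real.exp (-66) / 2) ^ d ≤ 1 / (d : ℝ) ^ 2

lemma eventually_big : ∃ d₀ : ℕ, ∀ d : ℕ, d₀ ≤ d → Big d := by
  have h1 : Tendsto (fun n : ℕ => (n : ℝ) ^ 3 * (7 / 8 : ℝ) ^ n) atTop (𝓝 0) :=
    tendsto_pow_const_mul_const_pow_of_abs_lt_one 3 (by rw [abs_of_pos] <;> norm_num)
  have hc0 : (0 : ℝ) < Real.exp (-66) := Real.exp_pos _
  have hc1 : Real.exp (-66) < 1 := by
    rw [Real.exp_lt_one_iff]; norm_num
  have h2 : Tendsto (fun n : ℕ => (n : ℝ) ^ 2 * (1 - Real.exp (-66) / 2) ^ n) atTop (𝓝 0) :=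
    tendsto_pow_const_mul_const_pow_of_abs_lt_one 2 (by rw [abs_of_pos] <;> linarith)
  have e1 : ∀ᶠ n : ℕ in atTop, (n : ℝ) ^ 3 * (7 / 8 : ℝ) ^ n < 7 / 64 :=
    h1.eventually (gt_mem_nhds (by norm_num))
  have e2 : ∀ᶠ n : ℕ in atTop, (n : ℝ) ^ 2 * (1 - Real.exp (-66) / 2) ^ n < 1 :=
    h2.eventually (gt_mem_nhds (by norm_num))
  obtain ⟨d₀, hd₀⟩ := eventually_atTop.1 ((e1.and e2).and (eventually_ge_atTop 1000))
  refine ⟨d₀, fun d hd => ?_⟩
  obtain ⟨⟨f1, f2⟩, f3⟩ := hd₀ d hd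
  have hdpos : (0 : ℝ) < d := by
    have : 0 < d := by omega
    exact_mod_cast this
  refine ⟨f3, ?_, ?_⟩
  · have : (7 / 8 : ℝ) ^ d = (7 / 8 : ℝ) ^ (d - 1) * (7 / 8) := by
      rw [← pow_succ]; congr 1; omega
    rw [this] at f1
    nlinarith
  · rw [le_div_iff₀ (by positivity)]
    linarith

namespace Big

variable {d : ℕ} (hd : Big d)
include hd

lemma cast : (1000 : ℝ) ≤ d := by exact_mod_cast hd.big

lemma pos : (0 : ℝ) < d := by linarith [hd.cast]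

/-- the small parameter -/
lemma eta_le : 1 / (d : ℝ) ^ 2 ≤ 1 / 1000 := by
  have := hd.cast
  apply one_div_le_one_div_of_le (by norm_num)
  nlinarith

lemma eta_pos : 0 < 1 / (d : ℝ) ^ 2 := by
  have := hd.pos
  positivity

lemma d_eta : (d : ℝ) * (1 / (d : ℝ) ^ 2) = 1 / d := by
  have := hd.pos
  field_simp

omit hd in
lemma pow78' : (7 / 8 : ℝ) ^ d ≤ (7 / 8 : ℝ) ^ (d - 1) :=
  pow_le_pow_of_le_one (by norm_num) (by norm_num) (Nat.sub_le _ _)

/-- `(7/8)^(d-1) ≤ 1/(8 d^3)` -/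
lemma pow78 : (7 / 8 : ℝ) ^ (d - 1) ≤ 1 / (8 * (d : ℝ) ^ 3) := by
  have h := hd.h78
  have := hd.pos
  rw [le_div_iff₀ (by positivity)]
  linarith

end Big

/-- A1: low sites stay low. -/
lemma g_low {d : ℕ} (hd : Big d) {x y z : ℝ} (hx : U01 x) (hy : U01 y) (hz : U01 z)
    (h1 : x ≤ 1 / (d : ℝ) ^ 2) (h2 : y ≤ 1 / (d : ℝ) ^ 2) : g d x y z ≤ 1 / (d : ℝ) ^ 2 := by
  have hpos := hd.pos
  have hc := hd.cast
  have he := hd.eta_le
  have h3 : 1 - 1 / (d : ℝ) ≤ (1 - (x + y) / 2) ^ d := by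
    have := one_add_mul_le_pow (a := -(1 / (d : ℝ) ^ 2)) (by linarith) d
    have h4 : (1 + -(1 / (d : ℝ) ^ 2)) ^ d ≤ (1 - (x + y) / 2) ^ d :=
      pow_le_pow_left₀ (by linarith) (by linarith) d
    have h5 := hd.d_eta
    linarith
  have h4 : 0 ≤ (1 - (y + z) / 2) ^ d := ((hy.half hz).pow d).1
  have h5 : 1 / (d : ℝ) ≤ 1 / 1000 := one_div_le_one_div_of_le (by norm_num) hc
  have hA : inner d x y z ≤ 7 / 8 := by
    unfold inner
    linarith
  have hA0 := (inner_mem (d := d) hx hy hz).1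
  calc g d x y z = inner d x y z ^ d := rfl
    _ ≤ (7 / 8) ^ d := pow_le_pow_left₀ hA0 hA d
    _ ≤ (7 / 8) ^ (d - 1) := Big.pow78' (d := d)
    _ ≤ 1 / (8 * (d : ℝ) ^ 3) := hd.pow78
    _ ≤ 1 / (d : ℝ) ^ 2 := by
      apply one_div_le_one_div_of_le (by positivity)
      nlinarith [sq_nonneg (d : ℝ), pow_pos hpos 2, pow_pos hpos 3]

/-- A2: high sites stay high. -/
lemma g_high {d : ℕ} (hd : Big d) {x y z : ℝ} (hx : U01 x) (hy : U01 y) (hz : U01 z)
    (h1 : 1 - 1 / (d : ℝ) ^ 2 ≤ y) : 1 - 1 / (d : ℝ) ^ 2 ≤ g d x y z := by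
  have hpos := hd.pos
  have hc := hd.cast
  have he := hd.eta_le
  have p1 : (1 - (x + y) / 2) ^ d ≤ (7 / 8) ^ d :=
    pow_le_pow_left₀ (hx.half hy).1 (by linarith [hx.1]) d
  have p2 : (1 - (y + z) / 2) ^ d ≤ (7 / 8) ^ d :=
    pow_le_pow_left₀ (hy.half hz).1 (by linarith [hz.1]) d
  have hA : 1 - (7 / 8) ^ d ≤ inner d x y z := by
    unfold inner
    linarith
  have h78 := hd.pow78
  have h78' := Big.pow78' (d := d)
  have h8 : (7 / 8 : ℝ) ^ d ≤ 1 := pow_le_one₀ (by norm_num) (by norm_num)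
  have h0 : (0 : ℝ) ≤ (7 / 8 : ℝ) ^ d := by positivity
  calc 1 - 1 / (d : ℝ) ^ 2 ≤ 1 - d * (1 / (8 * (d : ℝ) ^ 3)) := by
        have : (d : ℝ) * (1 / (8 * (d : ℝ) ^ 3)) = 1 / (8 * (d : ℝ) ^ 2) := by
          field_simp
        rw [this]
        have : 1 / (8 * (d : ℝ) ^ 2) ≤ 1 / (d : ℝ) ^ 2 := by
          apply one_div_le_one_div_of_le (by positivity)
          nlinarith [pow_pos hpos 2]
        linarith
    _ ≤ 1 + d * (-(7 / 8 : ℝ) ^ d) := by
        have : (d : ℝ) * (7 / 8 : ℝ) ^ d ≤ d * (1 / (8 * (d : ℝ) ^ 3)) := by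
          gcongr
          exact h78'.trans h78
        linarith
    _ ≤ (1 + -(7 / 8 : ℝ) ^ d) ^ d := one_add_mul_le_pow (by linarith) d
    _ ≤ inner d x y z ^ d := pow_le_pow_left₀ (by linarith) (by linarith) d
    _ = g d x y z := rfl

/-- A3: contraction at low sites. -/
lemma g_low_contr {d : ℕ} (hd : Big d) {x y z x' y' z' δ : ℝ} (hx : U01 x) (hy : U01 y)
    (hz : U01 z) (hx' : U01 x') (hy' : U01 y') (hz' : U01 z')
    (l1 : x ≤ 1 / (d : ℝ) ^ 2) (l2 : y ≤ 1 / (d : ℝ) ^ 2)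
    (l1' : x' ≤ 1 / (d : ℝ) ^ 2) (l2' : y' ≤ 1 / (d : ℝ) ^ 2)
    (h1 : |x' - x| ≤ δ) (h2 : |y' - y| ≤ δ) (h3 : |z' - z| ≤ δ) :
    |g d x' y' z' - g d x y z| ≤ δ / 8 := by
  have hpos := hd.pos
  have hc := hd.cast
  have he := hd.eta_le
  have h5 : 1 / (d : ℝ) ≤ 1 / 1000 := one_div_le_one_div_of_le (by norm_num) hc
  have hδ : 0 ≤ δ := (abs_nonneg _).trans h1
  have key : ∀ x y z : ℝ, U01 x → U01 y → U01 z → x ≤ 1 / (d : ℝ) ^ 2 → y ≤ 1 / (d : ℝ) ^ 2 →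
      inner d x y z ≤ 7 / 8 := by
    intro x y z hx hy hz l1 l2
    have h3 : 1 - 1 / (d : ℝ) ≤ (1 - (x + y) / 2) ^ d := by
      have := one_add_mul_le_pow (a := -(1 / (d : ℝ) ^ 2)) (by linarith) d
      have h4 : (1 + -(1 / (d : ℝ) ^ 2)) ^ d ≤ (1 - (x + y) / 2) ^ d :=
        pow_le_pow_left₀ (by linarith) (by linarith) d
      have h5 := hd.d_eta
      linarith
    have h4 : 0 ≤ (1 - (y + z) / 2) ^ d := ((hy.half hz).pow d).1
    unfold inner
    linarith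
  have hA := inner_mem (d := d) hx hy hz
  have hA' := inner_mem (d := d) hx' hy' hz'
  have e1 := pow_diff_upper (d := d) hA.1 hA'.1 (key x y z hx hy hz l1 l2)
    (key x' y' z' hx' hy' hz' l1' l2')
  have e2 := pow_diff_upper (d := d) (hx.half hy).1 (hx'.half hy').1 (hx.half hy).2 (hx'.half hy').2
  have e3 := pow_diff_upper (d := d) (hy.half hz).1 (hy'.half hz').1 (hy.half hz).2 (hy'.half hz').2
  have f2 := abs_half_diff h1 h2
  have f3 := abs_half_diff h2 h3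
  simp only [one_pow, mul_one] at e2 e3
  have e2' : |(1 - (x' + y') / 2) ^ d - (1 - (x + y) / 2) ^ d| ≤ d * δ :=
    e2.trans (by gcongr)
  have e3' : |(1 - (y' + z') / 2) ^ d - (1 - (y + z) / 2) ^ d| ≤ d * δ :=
    e3.trans (by gcongr)
  have hin : |inner d x' y' z' - inner d x y z| ≤ d * δ := by
    unfold inner
    rw [abs_le] at *
    constructor <;> linarith [e2'.1, e2'.2, e3'.1, e3'.2]
  have h78 := hd.pow78
  calc |g d x' y' z' - g d x y z| ≤ d * (7 / 8) ^ (d - 1) * |inner d x' y' z' - inner d x y z| := e1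
    _ ≤ d * (1 / (8 * (d : ℝ) ^ 3)) * (d * δ) := by gcongr
    _ = δ / 8 * (1 / d) := by field_simp
    _ ≤ δ / 8 * 1 := by
        apply mul_le_mul_of_nonneg_left (by linarith) (by linarith)
    _ = δ / 8 := by ring

/-- A4: contraction at high sites. -/
lemma g_high_contr {d : ℕ} (hd : Big d) {x y z x' y' z' δ : ℝ} (hx : U01 x) (hy : U01 y)
    (hz : U01 z) (hx' : U01 x') (hy' : U01 y') (hz' : U01 z')
    (l : 1 - 1 / (d : ℝ) ^ 2 ≤ y) (l' : 1 - 1 / (d : ℝ) ^ 2 ≤ y')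
    (h1 : |x' - x| ≤ δ) (h2 : |y' - y| ≤ δ) (h3 : |z' - z| ≤ δ) :
    |g d x' y' z' - g d x y z| ≤ δ / 8 := by
  have hpos := hd.pos
  have hc := hd.cast
  have he := hd.eta_le
  have h5 : 1 / (d : ℝ) ≤ 1 / 1000 := one_div_le_one_div_of_le (by norm_num) hc
  have hδ : 0 ≤ δ := (abs_nonneg _).trans h1
  have hA := inner_mem (d := d) hx hy hz
  have hA' := inner_mem (d := d) hx' hy' hz'
  have e1 := pow_diff_upper (d := d) hA.1 hA'.1 hA.2 hA'.2
  have e2 := pow_diff_upper (d := d) (M := 7 / 8) (hx.half hy).1 (hx'.half hy').1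
    (by linarith [hx.1]) (by linarith [hx'.1])
  have e3 := pow_diff_upper (d := d) (M := 7 / 8) (hy.half hz).1 (hy'.half hz').1
    (by linarith [hz.1]) (by linarith [hz'.1])
  have f2 := abs_half_diff h1 h2
  have f3 := abs_half_diff h2 h3
  simp only [one_pow, mul_one] at e1
  have h78 := hd.pow78
  have e2' : |(1 - (x' + y') / 2) ^ d - (1 - (x + y) / 2) ^ d| ≤ d * (1 / (8 * (d : ℝ) ^ 3)) * δ :=
    e2.trans (by gcongr)
  have e3' : |(1 - (y' + z') / 2) ^ d - (1 - (y + z) / 2) ^ d| ≤ d * (1 / (8 * (d : ℝ) ^ 3)) * δ :=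
    e3.trans (by gcongr)
  have hin : |inner d x' y' z' - inner d x y z| ≤ d * (1 / (8 * (d : ℝ) ^ 3)) * δ := by
    unfold inner
    rw [abs_le] at *
    constructor <;> linarith [e2'.1, e2'.2, e3'.1, e3'.2]
  calc |g d x' y' z' - g d x y z| ≤ d * |inner d x' y' z' - inner d x y z| := e1
    _ ≤ d * (d * (1 / (8 * (d : ℝ) ^ 3)) * δ) := by gcongr
    _ = δ / 8 * (1 / d) := by field_simp
    _ ≤ δ / 8 * 1 := by
        apply mul_le_mul_of_nonneg_left (by linarith) (by linarith)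
    _ = δ / 8 := by ring

/-- A5: escape downwards. -/
lemma g_escape_low {d : ℕ} (hd : Big d) {x y z : ℝ} (hx : U01 x) (hy : U01 y) (hz : U01 z)
    (h1 : x ≤ 1 / (d : ℝ) ^ 2) (h2 : y ≤ 64 / (d : ℝ)) : g d x y z ≤ 1 / (d : ℝ) ^ 2 := by
  have hpos := hd.pos
  have hc := hd.cast
  have he := hd.eta_le
  have h5 : 1 / (d : ℝ) ≤ 1 / 1000 := one_div_le_one_div_of_le (by norm_num) hc
  have heta : 1 / (d : ℝ) ^ 2 ≤ 1 / d := by
    apply one_div_le_one_div_of_le hpos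
    nlinarith
  have h64 : 64 / (d : ℝ) = 64 * (1 / d) := by ring
  have ha : 1 - 33 / (d : ℝ) ≤ 1 - (x + y) / 2 := by
    have : 33 / (d : ℝ) = 33 * (1 / d) := by ring
    have hd0 : 0 < 1 / (d : ℝ) := by positivity
    rw [this]
    linarith
  have hexp : Real.exp (-66) ≤ (1 - 33 / (d : ℝ)) ^ d := by
    have h6 : Real.exp (-(66 / (d : ℝ))) ≤ 1 - 33 / (d : ℝ) := by
      -- exp(-2t) ≤ 1 - t for 0 ≤ t ≤ 1/2
      have ht : 33 / (d : ℝ) ≤ 1 / 2 := by
        rw [div_le_iff₀ hpos]; linarith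
      have ht0 : 0 ≤ 33 / (d : ℝ) := by positivity
      set t := 33 / (d : ℝ) with htdef
      have h66 : 66 / (d : ℝ) = 2 * t := by rw [htdef]; ring
      rw [h66, Real.exp_neg]
      have h7 : 2 * t + 1 ≤ Real.exp (2 * t) := Real.add_one_le_exp _
      have h8 : (Real.exp (2 * t))⁻¹ ≤ (2 * t + 1)⁻¹ := by
        apply inv_anti₀ (by linarith) h7
      refine h8.trans ?_
      rw [inv_le_iff_one_le_mul₀ (by linarith)]
      nlinarith
    calc Real.exp (-66) = Real.exp (-(66 / (d : ℝ))) ^ d := by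
          rw [← Real.exp_nat_mul]
          congr 1
          field_simp
      _ ≤ (1 - 33 / (d : ℝ)) ^ d := pow_le_pow_left₀ (Real.exp_nonneg _) h6 d
  have h33 : 0 ≤ 1 - 33 / (d : ℝ) := by
    have : 33 / (d : ℝ) ≤ 1 / 2 := by
      rw [div_le_iff₀ hpos]; linarith
    linarith
  have h9 : Real.exp (-66) ≤ (1 - (x + y) / 2) ^ d := hexp.trans (pow_le_pow_left₀ h33 ha d)
  have h4 : 0 ≤ (1 - (y + z) / 2) ^ d := ((hy.half hz).pow d).1
  have hA : inner d x y z ≤ 1 - Real.exp (-66) / 2 := by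
    unfold inner
    linarith
  have hA0 := (inner_mem (d := d) hx hy hz).1
  calc g d x y z = inner d x y z ^ d := rfl
    _ ≤ (1 - Real.exp (-66) / 2) ^ d := pow_le_pow_left₀ hA0 hA d
    _ ≤ 1 / (d : ℝ) ^ 2 := hd.hc

/-- A6: escape upwards. -/
lemma g_escape_high {d : ℕ} (hd : Big d) {x y z : ℝ} (hx : U01 x) (hy : U01 y) (hz : U01 z)
    (h1 : 1 / 4 ≤ y) : 1 - 1 / (d : ℝ) ^ 2 ≤ g d x y z := by
  have hpos := hd.pos
  have hc := hd.cast
  have p1 : (1 - (x + y) / 2) ^ d ≤ (7 / 8) ^ d :=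
    pow_le_pow_left₀ (hx.half hy).1 (by linarith [hx.1]) d
  have p2 : (1 - (y + z) / 2) ^ d ≤ (7 / 8) ^ d :=
    pow_le_pow_left₀ (hy.half hz).1 (by linarith [hz.1]) d
  have hA : 1 - (7 / 8) ^ d ≤ inner d x y z := by
    unfold inner
    linarith
  have h78 := hd.pow78
  have h78' := Big.pow78' (d := d)
  have h8 : (7 / 8 : ℝ) ^ d ≤ 1 := pow_le_one₀ (by norm_num) (by norm_num)
  have h0 : (0 : ℝ) ≤ (7 / 8 : ℝ) ^ d := by positivity
  calc 1 - 1 / (d : ℝ) ^ 2 ≤ 1 - d * (1 / (8 * (d : ℝ) ^ 3)) := by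
        have : (d : ℝ) * (1 / (8 * (d : ℝ) ^ 3)) = 1 / (8 * (d : ℝ) ^ 2) := by
          field_simp
        rw [this]
        have : 1 / (8 * (d : ℝ) ^ 2) ≤ 1 / (d : ℝ) ^ 2 := by
          apply one_div_le_one_div_of_le (by positivity)
          nlinarith [pow_pos hpos 2]
        linarith
    _ ≤ 1 + d * (-(7 / 8 : ℝ) ^ d) := by
        have : (d : ℝ) * (7 / 8 : ℝ) ^ d ≤ d * (1 / (8 * (d : ℝ) ^ 3)) := by
          gcongr
          exact h78'.trans h78
        linarith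
    _ ≤ (1 + -(7 / 8 : ℝ) ^ d) ^ d := one_add_mul_le_pow (by linarith) d
    _ ≤ inner d x y z ^ d := pow_le_pow_left₀ (by linarith) (by linarith) d
    _ = g d x y z := rfl

/-- A7: expansion at the middle site inside the window. -/
lemma g_expand {d : ℕ} (hd : Big d) {x y z x' y' z' : ℝ} (hx : U01 x) (hy : U01 y)
    (hz : U01 z) (hx' : U01 x') (hy' : U01 y') (hz' : U01 z')
    (hzh : 1 - 1 / (d : ℝ) ^ 2 ≤ z) (hzh' : 1 - 1 / (d : ℝ) ^ 2 ≤ z')
    (hyy : y < y') (h1 : |x' - x| ≤ (y' - y) / 4) (h3 : |z' - z| ≤ (y' - y) / 4)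
    (hlow : 64 / (d : ℝ) ≤ g d x y z) (hhigh : g d x' y' z' ≤ 1 / 4) :
    8 * (y' - y) ≤ g d x' y' z' - g d x y z := by
  have hpos := hd.pos
  have hc := hd.cast
  have he := hd.eta_le
  have h78 := hd.pow78
  have h78' := Big.pow78' (d := d)
  have h5 : 1 / (d : ℝ) ≤ 1 / 1000 := one_div_le_one_div_of_le (by norm_num) hc
  have hA := inner_mem (d := d) hx hy hz
  have hA' := inner_mem (d := d) hx' hy' hz'
  set Δ := y' - y with hΔ
  have hΔ0 : 0 < Δ := by linarith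
  set a := 1 - (x + y) / 2 with ha
  set a' := 1 - (x' + y') / 2 with ha'
  set b := 1 - (y + z) / 2 with hb
  set b' := 1 - (y' + z') / 2 with hb'
  have ha0 : 0 ≤ a := (hx.half hy).1
  have ha0' : 0 ≤ a' := (hx'.half hy').1
  have ha1' : a' ≤ 1 := (hx'.half hy').2
  have hb0 : 0 ≤ b := (hy.half hz).1
  have hb0' : 0 ≤ b' := (hy'.half hz').1
  have hbM : b ≤ 7 / 8 := by rw [hb]; linarith [hy.1]
  have hbM' : b' ≤ 7 / 8 := by rw [hb']; linarith [hy'.1]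
  -- lower bound for a' ^ d
  have hAd : inner d x' y' z' ^ d ≤ 1 / 4 := hhigh
  have hAeq' : inner d x' y' z' = 1 - 1 / 2 * a' ^ d - 1 / 2 * b' ^ d := rfl
  have hAeq : inner d x y z = 1 - 1 / 2 * a ^ d - 1 / 2 * b ^ d := rfl
  have hbern := one_add_mul_le_pow (a := inner d x' y' z' - 1) (by linarith [hA'.1]) d
  have hb'd : b' ^ d ≤ (7 / 8 : ℝ) ^ d := pow_le_pow_left₀ hb0' hbM' d
  have hsmall : (7 / 8 : ℝ) ^ (d - 1) ≤ 1 / (8 * d) * (1 / 1000) := by
    refine h78.trans ?_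
    have : 1 / (8 * (d : ℝ) ^ 3) = 1 / (8 * d) * (1 / (d : ℝ) ^ 2) := by
      field_simp
    rw [this]
    gcongr
  have hu : (d : ℝ) * (1 / 2 * a' ^ d + 1 / 2 * b' ^ d) ≥ 3 / 4 := by
    have : 1 + (inner d x' y' z' - 1) = inner d x' y' z' := by ring
    rw [this] at hbern
    have h9 : (d : ℝ) * (inner d x' y' z' - 1) = -(d * (1 / 2 * a' ^ d + 1 / 2 * b' ^ d)) := by
      rw [hAeq']; ring
    rw [h9] at hbern
    linarith
  have hda : 1 ≤ (d : ℝ) * a' ^ d := by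
    have h10 : (d : ℝ) * b' ^ d ≤ 1 / 8 := by
      have : (d : ℝ) * b' ^ d ≤ d * (1 / (8 * d) * (1 / 1000)) := by
        gcongr
        exact hb'd.trans (h78'.trans hsmall)
      have h11 : (d : ℝ) * (1 / (8 * d) * (1 / 1000)) = 1 / 8000 := by
        field_simp; norm_num
      linarith
    nlinarith
  -- difference of the a-part
  have hx4 := abs_le.1 h1
  have hz4 := abs_le.1 h3
  have haa : 3 / 8 * Δ ≤ a - a' := by
    rw [ha, ha']
    linarith [hx4.1, hx4.2]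
  clear_value a a' b b' Δ
  have haa' : a' ≤ a := by linarith
  have e1 := pow_diff_lower (d := d) ha0' haa'
  have hpow1 : a' ^ d ≤ a' ^ (d - 1) := pow_le_pow_of_le_one ha0' ha1' (Nat.sub_le _ _)
  have e1' : 3 / 8 * Δ ≤ a ^ d - a' ^ d := by
    refine le_trans ?_ e1
    calc 3 / 8 * Δ ≤ 1 * (a - a') := by linarith
      _ ≤ (d * a' ^ d) * (a - a') := by
          apply mul_le_mul_of_nonneg_right hda (by linarith)
      _ ≤ d * a' ^ (d - 1) * (a - a') := by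
          apply mul_le_mul_of_nonneg_right _ (by linarith)
          gcongr
  -- difference of the b-part
  have hbb : |b' - b| ≤ Δ := by
    rw [hb, hb', abs_le]
    constructor <;> linarith [hz4.1, hz4.2]
  have e2 := pow_diff_upper (d := d) hb0 hb0' hbM hbM'
  have e2' : |b' ^ d - b ^ d| ≤ 1 / 8 * Δ := by
    calc |b' ^ d - b ^ d| ≤ d * (7 / 8) ^ (d - 1) * |b' - b| := e2
      _ ≤ d * (1 / (8 * d) * (1 / 1000)) * Δ := by gcongr
      _ = 1 / 8000 * Δ := by field_simp; norm_num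
      _ ≤ 1 / 8 * Δ := by nlinarith
  have e2'' := abs_le.1 e2'
  have hdiff : 1 / 8 * Δ ≤ inner d x' y' z' - inner d x y z := by
    rw [hAeq, hAeq']
    linarith [e2''.1, e2''.2]
  have hle : inner d x y z ≤ inner d x' y' z' := by nlinarith
  have e3 := pow_diff_lower (d := d) hA.1 hle
  have hpow2 : inner d x y z ^ d ≤ inner d x y z ^ (d - 1) :=
    pow_le_pow_of_le_one hA.1 hA.2 (Nat.sub_le _ _)
  have hlow' : 64 / (d : ℝ) ≤ inner d x y z ^ d := hlow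
  calc 8 * Δ = d * (64 / d) * (1 / 8 * Δ) := by field_simp; norm_num
    _ ≤ d * inner d x y z ^ (d - 1) * (1 / 8 * Δ) := by
        apply mul_le_mul_of_nonneg_right _ (by linarith)
        apply mul_le_mul_of_nonneg_left (hlow'.trans hpow2) hpos.le
    _ ≤ d * inner d x y z ^ (d - 1) * (inner d x' y' z' - inner d x y z) := by
        apply mul_le_mul_of_nonneg_left hdiff
        apply mul_nonneg hpos.le (pow_nonneg hA.1 _)
    _ ≤ inner d x' y' z' ^ d - inner d x y z ^ d := e3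
    _ = g d x' y' z' - g d x y z := rfl

end

end Pool.Agent.H95.MinMax
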