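import Pool.Agent.H95.MinMaxA

/-!
Dynamics of the two-level map on profiles indexed by the half-integers `k = i / 2`.
-/

namespace Pool.Agent.H95.MinMax

open Filter Topology

noncomputable section

/-- the map on profiles, in the half index -/
def psi (d : ℕ) (f : ℤ → ℝ) : ℤ → ℝ := fun k => g d (f (k - 1)) (f k) (f (k + 1))

/-- initial profile -/
def prof (p : ℝ) : ℤ → ℝ := fun k => if k < 0 then 0 else if k = 0 then p else 1

/-- orbit of the initial profile -/
def orb (d : ℕ) (p : ℝ) : ℕ → ℤ → ℝ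
  | 0 => prof p
  | n + 1 => psi d (orb d p n)

lemma orb_succ (d : ℕ) (p : ℝ) (n : ℕ) : orb d p (n + 1) = psi d (orb d p n) := rfl

lemma prof_mem {p : ℝ} (hp : U01 p) (k : ℤ) : U01 (prof p k) := by
  unfold prof
  split_ifs
  · exact ⟨le_refl _, zero_le_one⟩
  · exact hp
  · exact ⟨zero_le_one, le_refl _⟩

lemma orb_mem {d : ℕ} {p : ℝ} (hp : U01 p) (n : ℕ) (k : ℤ) : U01 (orb d p n k) := by
  induction n generalizing k with
  | zero => exact prof_mem hp k
  | succ n ih => exact g_mem (ih _) (ih _) (ih _)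

lemma prof_mono {p : ℝ} (hp : U01 p) : Monotone (prof p) := by
  intro a b hab
  unfold prof
  split_ifs <;> first | exact le_refl _ | exact hp.1 | exact hp.2 | exact zero_le_one | (exfalso; omega)

lemma orb_mono {d : ℕ} {p : ℝ} (hp : U01 p) (n : ℕ) : Monotone (orb d p n) := by
  induction n with
  | zero => exact prof_mono hp
  | succ n ih =>
    intro a b hab
    exact g_mono (orb_mem hp _ _) (orb_mem hp _ _) (orb_mem hp _ _) (orb_mem hp _ _)
      (orb_mem hp _ _) (orb_mem hp _ _) (ih (by omega)) (ih hab) (ih (by omega))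

lemma prof_mono_p {p q : ℝ} (hpq : p ≤ q) (k : ℤ) : prof p k ≤ prof q k := by
  unfold prof
  split_ifs <;> first | exact le_refl _ | exact hpq

lemma orb_mono_p {d : ℕ} {p q : ℝ} (hp : U01 p) (hq : U01 q) (hpq : p ≤ q) (n : ℕ) (k : ℤ) :
    orb d p n k ≤ orb d q n k := by
  induction n generalizing k with
  | zero => exact prof_mono_p hpq k
  | succ n ih =>
    exact g_mono (orb_mem hp _ _) (orb_mem hp _ _) (orb_mem hp _ _) (orb_mem hq _ _)
      (orb_mem hq _ _) (orb_mem hq _ _) (ih _) (ih _) (ih _)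

lemma orb_lip_p {d : ℕ} {p q : ℝ} (hp : U01 p) (hq : U01 q) (n : ℕ) (k : ℤ) :
    |orb d q n k - orb d p n k| ≤ ((d : ℝ) ^ 2) ^ n * |q - p| := by
  induction n generalizing k with
  | zero =>
    simp only [orb, pow_zero, one_mul]
    unfold prof
    split_ifs <;> simp
  | succ n ih =>
    have := g_lip (d := d) (orb_mem hp n (k - 1)) (orb_mem hp n k) (orb_mem hp n (k + 1))
      (orb_mem hq n (k - 1)) (orb_mem hq n k) (orb_mem hq n (k + 1)) (ih (k - 1)) (ih k) (ih (k + 1))
    calc |orb d q (n + 1) k - orb d p (n + 1) k| ≤ (d : ℝ) ^ 2 * (((d : ℝ) ^ 2) ^ n * |q - p|) := this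
      _ = ((d : ℝ) ^ 2) ^ (n + 1) * |q - p| := by ring

/-- region: step at `j`, up to `1/d^2`. -/
structure Reg (d : ℕ) (j : ℤ) (f : ℤ → ℝ) : Prop where
  mem : ∀ k, U01 (f k)
  low : ∀ k < j, f k ≤ 1 / (d : ℝ) ^ 2
  high : ∀ k, j ≤ k → 1 - 1 / (d : ℝ) ^ 2 ≤ f k

lemma Reg.psi {d : ℕ} (hd : Big d) {j : ℤ} {f : ℤ → ℝ} (hf : Reg d j f) : Reg d j (psi d f) where
  mem k := g_mem (hf.mem _) (hf.mem _) (hf.mem _)
  low k hk := g_low hd (hf.mem _) (hf.mem _) (hf.mem _) (hf.low _ (by omega)) (hf.low _ hk)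
  high k hk := g_high hd (hf.mem _) (hf.mem _) (hf.mem _) (hf.high _ hk)

lemma Reg.contr {d : ℕ} (hd : Big d) {j : ℤ} {f f' : ℤ → ℝ} (hf : Reg d j f) (hf' : Reg d j f')
    {δ : ℝ} (h : ∀ k, |f' k - f k| ≤ δ) (k : ℤ) :
    |MinMax.psi d f' k - MinMax.psi d f k| ≤ δ / 8 := by
  rcases lt_or_ge k j with hk | hk
  · exact g_low_contr hd (hf.mem _) (hf.mem _) (hf.mem _) (hf'.mem _) (hf'.mem _) (hf'.mem _)
      (hf.low _ (by omega)) (hf.low _ hk) (hf'.low _ (by omega)) (hf'.low _ hk) (h _) (h _) (h _)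
  · exact g_high_contr hd (hf.mem _) (hf.mem _) (hf.mem _) (hf'.mem _) (hf'.mem _) (hf'.mem _)
      (hf.high _ hk) (hf'.high _ hk) (h _) (h _) (h _)

/-- two orbits in the same region come together -/
lemma Reg.orbits {d : ℕ} (hd : Big d) {j : ℤ} {F F' : ℕ → ℤ → ℝ} (h0 : Reg d j (F 0))
    (h0' : Reg d j (F' 0)) (hF : ∀ n, F (n + 1) = MinMax.psi d (F n))
    (hF' : ∀ n, F' (n + 1) = MinMax.psi d (F' n)) (n : ℕ) :
    Reg d j (F n) ∧ Reg d j (F' n) ∧ ∀ k, |F' n k - F n k| ≤ (1 / 2) ^ n := by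
  induction n with
  | zero =>
    refine ⟨h0, h0', fun k => ?_⟩
    have h1 := h0.mem k
    have h2 := h0'.mem k
    rw [abs_le]
    constructor <;> simp only [pow_zero] <;> linarith [h1.1, h1.2, h2.1, h2.2]
  | succ n ih =>
    obtain ⟨i1, i2, i3⟩ := ih
    refine ⟨by rw [hF]; exact i1.psi hd, by rw [hF']; exact i2.psi hd, fun k => ?_⟩
    rw [hF, hF']
    refine (Reg.contr hd i1 i2 i3 k).trans ?_
    have : (0 : ℝ) < (1 / 2) ^ n := by positivity
    rw [pow_succ]
    linarith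

/-- uniform limit of a geometrically Cauchy sequence of profiles -/
lemma exists_limit {F : ℕ → ℤ → ℝ} (h : ∀ n k, |F (n + 1) k - F n k| ≤ (1 / 2) ^ n) :
    ∃ U : ℤ → ℝ, (∀ n k, |F n k - U k| ≤ 2 * (1 / 2) ^ n) ∧
      ∀ k, Tendsto (fun n => F n k) atTop (𝓝 (U k)) := by
  have hc : ∀ k, ∀ n, dist (F n k) (F (n + 1) k) ≤ 1 * (1 / 2) ^ n := by
    intro k n
    rw [Real.dist_eq, abs_sub_comm, one_mul]
    exact h n k
  have hcau : ∀ k, CauchySeq (fun n => F n k) := fun k =>
    cauchySeq_of_le_geometric (1 / 2) 1 (by norm_num) (hc k)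
  choose U hU using fun k => cauchySeq_tendsto_of_complete (hcau k)
  refine ⟨U, fun n k => ?_, hU⟩
  have := dist_le_of_le_geometric_of_tendsto (1 / 2) 1 (by norm_num) (hc k) (hU k) n
  rw [Real.dist_eq] at this
  refine this.trans (le_of_eq ?_)
  ring

lemma orb_zero_shift (d : ℕ) (n : ℕ) (k : ℤ) : orb d 0 n k = orb d 1 n (k - 1) := by
  induction n generalizing k with
  | zero =>
    simp only [orb, prof]
    split_ifs <;> first | rfl | (exfalso; omega)
  | succ n ih =>
    simp only [orb_succ, psi]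
    rw [ih, ih, ih]
    congr 1
    congr 1
    ring

lemma U01_zero : U01 (0 : ℝ) := ⟨le_refl _, zero_le_one⟩
lemma U01_one : U01 (1 : ℝ) := ⟨zero_le_one, le_refl _⟩

lemma reg_prof_one {d : ℕ} (hd : Big d) : Reg d 0 (prof 1) where
  mem := prof_mem U01_one
  low k hk := by
    have := hd.eta_pos
    simp only [prof, hk, if_true]
    exact this.le
  high k hk := by
    have := hd.eta_pos
    unfold prof
    split_ifs
    · omega
    · linarith
    · linarith

lemma reg_prof_zero {d : ℕ} (hd : Big d) : Reg d 1 (prof 0) where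
  mem := prof_mem U01_zero
  low k hk := by
    have := hd.eta_pos
    unfold prof
    split_ifs
    · exact this.le
    · exact this.le
    · omega
  high k hk := by
    have := hd.eta_pos
    unfold prof
    split_ifs
    · omega
    · omega
    · linarith

lemma reg_orb_one {d : ℕ} (hd : Big d) (n : ℕ) : Reg d 0 (orb d 1 n) := by
  induction n with
  | zero => exact reg_prof_one hd
  | succ n ih => exact ih.psi hd

lemma reg_orb_zero {d : ℕ} (hd : Big d) (n : ℕ) : Reg d 1 (orb d 0 n) := by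
  induction n with
  | zero => exact reg_prof_zero hd
  | succ n ih => exact ih.psi hd

/-- the limit profile of the all-zero boundary condition exists -/
lemma exists_ell {d : ℕ} (hd : Big d) :
    ∃ U : ℤ → ℝ, (∀ n k, |orb d 1 n k - U k| ≤ 2 * (1 / 2) ^ n) ∧
      ∀ k, Tendsto (fun n => orb d 1 n k) atTop (𝓝 (U k)) := by
  apply exists_limit
  intro n k
  exact (Reg.orbits hd (F := fun n => orb d 1 n) (F' := fun n => orb d 1 (n + 1))
    (reg_orb_one hd 0) (reg_orb_one hd 1) (fun _ => rfl) (fun _ => rfl) n).2.2 k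

/-- the middle region is kept by the orbit: sites `k ≠ 0` stay close to the step -/
lemma orb_low {d : ℕ} (hd : Big d) {p : ℝ} (hp : U01 p) (n : ℕ) {k : ℤ} (hk : k < 0) :
    orb d p n k ≤ 1 / (d : ℝ) ^ 2 :=
  (orb_mono_p hp U01_one hp.2 n k).trans ((reg_orb_one hd n).low k hk)

lemma orb_high {d : ℕ} (hd : Big d) {p : ℝ} (hp : U01 p) (n : ℕ) {k : ℤ} (hk : 0 < k) :
    1 - 1 / (d : ℝ) ^ 2 ≤ orb d p n k :=
  ((reg_orb_zero hd n).high k (by omega)).trans (orb_mono_p U01_zero hp hp.1 n k)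

/-- eventually below the window -/
def Low (d : ℕ) (p : ℝ) : Prop := ∃ n, orb d p n 0 ≤ 64 / (d : ℝ)

/-- eventually above the window -/
def High (d : ℕ) (p : ℝ) : Prop := ∃ n, 1 / 4 ≤ orb d p n 0

lemma low_limit {d : ℕ} (hd : Big d) {p : ℝ} (hp : U01 p) (h : Low d p) (k : ℤ) :
    Tendsto (fun n => orb d p n k - orb d 0 n k) atTop (𝓝 0) := by
  obtain ⟨N, hN⟩ := h
  have h1 : orb d p (N + 1) 0 ≤ 1 / (d : ℝ) ^ 2 :=
    g_escape_low hd (orb_mem hp _ _) (orb_mem hp _ _) (orb_mem hp _ _)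
      (orb_low hd hp N (by norm_num)) hN
  have hreg : Reg d 1 (orb d p (N + 1)) :=
    { mem := orb_mem hp _
      low := fun k hk => by
        rcases lt_or_eq_of_le (show k ≤ 0 by omega) with h | h
        · exact orb_low hd hp _ h
        · rw [h]; exact h1
      high := fun k hk => orb_high hd hp _ (by omega) }
  have key : ∀ m, |orb d p (m + (N + 1)) k - orb d 0 (m + (N + 1)) k| ≤ (1 / 2) ^ m := by
    intro m
    refine (Reg.orbits hd (j := 1) (F := fun m => orb d 0 (m + (N + 1)))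
      (F' := fun m => orb d p (m + (N + 1))) ?_ ?_ ?_ ?_ m).2.2 k
    · exact reg_orb_zero hd _
    · simpa using hreg
    · intro n
      have : n + 1 + (N + 1) = (n + (N + 1)) + 1 := by ring
      simp only [this]
      rfl
    · intro n
      have : n + 1 + (N + 1) = (n + (N + 1)) + 1 := by ring
      simp only [this]
      rfl
  rw [← tendsto_add_atTop_iff_nat (N + 1)]
  apply squeeze_zero_norm (a := fun m : ℕ => (1 / 2 : ℝ) ^ m)
  · intro m
    rw [Real.norm_eq_abs]
    exact key m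
  · exact tendsto_pow_atTop_nhds_zero_of_lt_one (by norm_num) (by norm_num)

lemma high_limit {d : ℕ} (hd : Big d) {p : ℝ} (hp : U01 p) (h : High d p) (k : ℤ) :
    Tendsto (fun n => orb d p n k - orb d 1 n k) atTop (𝓝 0) := by
  obtain ⟨N, hN⟩ := h
  have h1 : 1 - 1 / (d : ℝ) ^ 2 ≤ orb d p (N + 1) 0 :=
    g_escape_high hd (orb_mem hp _ _) (orb_mem hp _ _) (orb_mem hp _ _) hN
  have hreg : Reg d 0 (orb d p (N + 1)) :=
    { mem := orb_mem hp _
      low := fun k hk => orb_low hd hp _ (by omega)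
      high := fun k hk => by
        rcases lt_or_eq_of_le hk with h | h
        · exact orb_high hd hp _ h
        · rw [← h]; exact h1 }
  have key : ∀ m, |orb d p (m + (N + 1)) k - orb d 1 (m + (N + 1)) k| ≤ (1 / 2) ^ m := by
    intro m
    refine (Reg.orbits hd (j := 0) (F := fun m => orb d 1 (m + (N + 1)))
      (F' := fun m => orb d p (m + (N + 1))) ?_ ?_ ?_ ?_ m).2.2 k
    · exact reg_orb_one hd _
    · simpa using hreg
    · intro n
      have : n + 1 + (N + 1) = (n + (N + 1)) + 1 := by ring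
      simp only [this]
      rfl
    · intro n
      have : n + 1 + (N + 1) = (n + (N + 1)) + 1 := by ring
      simp only [this]
      rfl
  rw [← tendsto_add_atTop_iff_nat (N + 1)]
  apply squeeze_zero_norm (a := fun m : ℕ => (1 / 2 : ℝ) ^ m)
  · intro m
    rw [Real.norm_eq_abs]
    exact key m
  · exact tendsto_pow_atTop_nhds_zero_of_lt_one (by norm_num) (by norm_num)

/-- `Low` and `High` exclude each other -/
lemma not_low_high {d : ℕ} (hd : Big d) {p : ℝ} (hp : U01 p) (h : Low d p) (h' : High d p) :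
    False := by
  have h1 := low_limit hd hp h 0
  have h2 := high_limit hd hp h' 0
  have h3 : Tendsto (fun n => orb d 1 n 0 - orb d 0 n 0) atTop (𝓝 0) := by
    have := h1.sub h2
    simp only [sub_sub_sub_cancel_left, sub_zero] at this
    exact this
  have h4 : ∀ n, (1 / 2 : ℝ) ≤ orb d 1 n 0 - orb d 0 n 0 := by
    intro n
    have e1 := (reg_orb_one hd n).high 0 (le_refl _)
    have e2 := (reg_orb_zero hd n).low 0 (by norm_num)
    have e3 := hd.eta_le
    linarith
  have := ge_of_tendsto' h3 h4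
  norm_num at this

/-- An orbit that stays in the window for ever. -/
structure Good (d : ℕ) (F : ℕ → ℤ → ℝ) : Prop where
  step : ∀ n, F (n + 1) = psi d (F n)
  mem : ∀ n k, U01 (F n k)
  low : ∀ n, ∀ k < 0, F n k ≤ 1 / (d : ℝ) ^ 2
  high : ∀ n, ∀ k, 0 < k → 1 - 1 / (d : ℝ) ^ 2 ≤ F n k
  win_low : ∀ n, 64 / (d : ℝ) ≤ F n 0
  win_high : ∀ n, F n 0 ≤ 1 / 4

lemma Good.contr {d : ℕ} (hd : Big d) {F F' : ℕ → ℤ → ℝ} (hF : Good d F) (hF' : Good d F')
    {n : ℕ} {δ : ℝ} (h : ∀ k, |F' n k - F n k| ≤ δ) {k : ℤ} (hk : k ≠ 0) :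
    |F' (n + 1) k - F (n + 1) k| ≤ δ / 8 := by
  rw [hF.step, hF'.step]
  rcases lt_or_gt_of_ne hk with hk | hk
  · exact g_low_contr hd (hF.mem _ _) (hF.mem _ _) (hF.mem _ _) (hF'.mem _ _) (hF'.mem _ _)
      (hF'.mem _ _) (hF.low _ _ (by omega)) (hF.low _ _ hk) (hF'.low _ _ (by omega))
      (hF'.low _ _ hk) (h _) (h _) (h _)
  · exact g_high_contr hd (hF.mem _ _) (hF.mem _ _) (hF.mem _ _) (hF'.mem _ _) (hF'.mem _ _)
      (hF'.mem _ _) (hF.high _ _ hk) (hF'.high _ _ hk) (h _) (h _) (h _)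

lemma Good.growth {d : ℕ} (hd : Big d) {F F' : ℕ → ℤ → ℝ} (hF : Good d F) (hF' : Good d F')
    {m : ℕ} (h0 : F m 0 < F' m 0) (h : ∀ k ≠ 0, |F' m k - F m k| ≤ (F' m 0 - F m 0) / 4) :
    False := by
  have key : ∀ j : ℕ, (F (m + j) 0 < F' (m + j) 0) ∧
      (8 ^ j * (F' m 0 - F m 0) ≤ F' (m + j) 0 - F (m + j) 0) ∧
      ∀ k ≠ 0, |F' (m + j) k - F (m + j) k| ≤ (F' (m + j) 0 - F (m + j) 0) / 4 := by
    intro j
    induction j with
    | zero => exact ⟨h0, by simp, h⟩
    | succ j ih =>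
      obtain ⟨i1, i2, i3⟩ := ih
      have e1 : 8 * (F' (m + j) 0 - F (m + j) 0) ≤ F' (m + (j + 1)) 0 - F (m + (j + 1)) 0 := by
        have hs : F (m + (j + 1)) = psi d (F (m + j)) := hF.step (m + j)
        have hs' : F' (m + (j + 1)) = psi d (F' (m + j)) := hF'.step (m + j)
        have w1 := hF.win_low (m + (j + 1))
        have w2 := hF'.win_high (m + (j + 1))
        rw [hs] at w1
        rw [hs'] at w2
        rw [hs, hs']
        exact g_expand hd (hF.mem _ _) (hF.mem _ _) (hF.mem _ _) (hF'.mem _ _) (hF'.mem _ _)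
          (hF'.mem _ _) (hF.high _ _ (by norm_num)) (hF'.high _ _ (by norm_num)) i1
          (i3 _ (by norm_num)) (i3 _ (by norm_num)) w1 w2
      have e0 : 0 < F' (m + j) 0 - F (m + j) 0 := by linarith
      refine ⟨by linarith, ?_, ?_⟩
      · calc 8 ^ (j + 1) * (F' m 0 - F m 0) = 8 * (8 ^ j * (F' m 0 - F m 0)) := by ring
          _ ≤ 8 * (F' (m + j) 0 - F (m + j) 0) := by linarith
          _ ≤ _ := e1
      · intro k hk
        have h2 : ∀ k, |F' (m + j) k - F (m + j) k| ≤ F' (m + j) 0 - F (m + j) 0 := by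
          intro k
          by_cases hk : k = 0
          · rw [hk, abs_of_pos e0]
          · refine (i3 k hk).trans ?_
            linarith
        have h3 := Good.contr hd hF hF' h2 hk
        have : m + j + 1 = m + (j + 1) := by ring
        rw [this] at h3
        linarith
  have hc : 0 < F' m 0 - F m 0 := by linarith
  obtain ⟨j, hj⟩ := pow_unbounded_of_one_lt (1 / (F' m 0 - F m 0)) (show (1 : ℝ) < 8 by norm_num)
  rw [div_lt_iff₀ hc] at hj
  have h1 := (key j).2.1
  have h2 := (hF'.mem (m + j) 0).2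
  have h3 := (hF.mem (m + j) 0).1
  linarith

lemma Good.close {d : ℕ} (hd : Big d) {F F' : ℕ → ℤ → ℝ} (hF : Good d F) (hF' : Good d F')
    (n : ℕ) : ∀ k, |F' n k - F n k| ≤ (1 / 2) ^ n := by
  induction n with
  | zero =>
    intro k
    have h1 := hF.mem 0 k
    have h2 := hF'.mem 0 k
    rw [abs_le]
    constructor <;> simp only [pow_zero] <;> linarith [h1.1, h1.2, h2.1, h2.2]
  | succ n ih =>
    have hpos : (0 : ℝ) < (1 / 2) ^ n := by positivity
    have hk : ∀ k ≠ 0, |F' (n + 1) k - F (n + 1) k| ≤ (1 / 2) ^ n / 8 := fun k hk =>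
      Good.contr hd hF hF' ih hk
    have h0 : |F' (n + 1) 0 - F (n + 1) 0| ≤ (1 / 2) ^ n / 2 := by
      by_contra hcon
      push Not at hcon
      rcases lt_trichotomy (F (n + 1) 0) (F' (n + 1) 0) with h | h | h
      · apply Good.growth hd hF hF' h
        intro k hk'
        have := hk k hk'
        rw [abs_of_pos (by linarith)] at hcon
        linarith
      · rw [h, sub_self, abs_zero] at hcon
        linarith
      · apply Good.growth hd hF' hF h
        intro k hk'
        have := hk k hk'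
        rw [abs_sub_comm, abs_of_pos (by linarith)] at hcon
        rw [abs_sub_comm]
        linarith
    intro k
    rw [pow_succ]
    by_cases hk0 : k = 0
    · rw [hk0]; linarith
    · have := hk k hk0
      linarith

/-- the orbit at a non-escaping parameter is good -/
lemma good_orb {d : ℕ} (hd : Big d) {p : ℝ} (hp : U01 p) (hl : ¬ Low d p) (hh : ¬ High d p) :
    Good d (orb d p) where
  step _ := rfl
  mem n k := orb_mem hp n k
  low n _ hk := orb_low hd hp n hk
  high n _ hk := orb_high hd hp n hk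
  win_low n := by
    by_contra h
    push Not at h
    exact hl ⟨n, h.le⟩
  win_high n := by
    by_contra h
    push Not at h
    exact hh ⟨n, h.le⟩

lemma Good.shift {d : ℕ} {F : ℕ → ℤ → ℝ} (hF : Good d F) : Good d (fun n => F (n + 1)) where
  step _ := hF.step _
  mem _ k := hF.mem _ k
  low _ k hk := hF.low _ k hk
  high _ k hk := hF.high _ k hk
  win_low _ := hF.win_low _
  win_high _ := hF.win_high _

lemma Good.exists_limit {d : ℕ} (hd : Big d) {F : ℕ → ℤ → ℝ} (hF : Good d F) :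
    ∃ U : ℤ → ℝ, (∀ n k, |F n k - U k| ≤ 2 * (1 / 2) ^ n) ∧
      ∀ k, Tendsto (fun n => F n k) atTop (𝓝 (U k)) :=
  MinMax.exists_limit fun n k => Good.close hd hF hF.shift n k

/-- at most one non-escaping parameter -/
lemma unique_window {d : ℕ} (hd : Big d) {p q : ℝ} (hp : U01 p) (hq : U01 q)
    (hl : ¬ Low d p) (hh : ¬ High d p) (hl' : ¬ Low d q) (hh' : ¬ High d q) (hpq : p < q) :
    False := by
  apply Good.growth hd (good_orb hd hp hl hh) (good_orb hd hq hl' hh') (m := 0)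
  · simpa [orb, prof] using hpq
  · intro k hk
    have : orb d q 0 k - orb d p 0 k = 0 := by
      simp only [orb, prof]
      split_ifs <;> simp
    rw [this, abs_zero]
    simp only [orb, prof]
    simp
    linarith

lemma low_mono {d : ℕ} {p q : ℝ} (hp : U01 p) (hq : U01 q) (hpq : p ≤ q) (h : Low d q) :
    Low d p := by
  obtain ⟨n, hn⟩ := h
  exact ⟨n, (orb_mono_p hp hq hpq n 0).trans hn⟩

lemma high_mono {d : ℕ} {p q : ℝ} (hp : U01 p) (hq : U01 q) (hpq : p ≤ q) (h : High d p) :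
    High d q := by
  obtain ⟨n, hn⟩ := h
  exact ⟨n, hn.trans (orb_mono_p hp hq hpq n 0)⟩

/-- `Low` is an open condition -/
lemma low_open {d : ℕ} (hd : Big d) {p : ℝ} (hp : U01 p) (h : Low d p) :
    ∃ ε > 0, ∀ q, U01 q → |q - p| ≤ ε → Low d q := by
  obtain ⟨n, hn⟩ := h
  have h1 : orb d p (n + 1) 0 ≤ 1 / (d : ℝ) ^ 2 :=
    g_escape_low hd (orb_mem hp _ _) (orb_mem hp _ _) (orb_mem hp _ _)
      (orb_low hd hp n (by norm_num)) hn
  have hpos := hd.pos
  have hc := hd.cast
  have h2 : 1 / (d : ℝ) ^ 2 ≤ 1 / d := by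
    apply one_div_le_one_div_of_le hpos
    nlinarith
  refine ⟨1 / d / ((d : ℝ) ^ 2) ^ (n + 1), by positivity, fun q hq hqp => ⟨n + 1, ?_⟩⟩
  have h3 := orb_lip_p (d := d) hp hq (n + 1) 0
  have h4 : ((d : ℝ) ^ 2) ^ (n + 1) * |q - p| ≤ 1 / (d : ℝ) := by
    calc ((d : ℝ) ^ 2) ^ (n + 1) * |q - p| ≤ ((d : ℝ) ^ 2) ^ (n + 1) *
        (1 / (d : ℝ) / ((d : ℝ) ^ 2) ^ (n + 1)) := by gcongr
      _ = 1 / (d : ℝ) := by field_simp
  have h5 := (abs_le.1 (h3.trans h4)).2
  have h6 : 64 / (d : ℝ) = 64 * (1 / d) := by ring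
  have h7 : 0 < 1 / (d : ℝ) := by positivity
  rw [h6]
  linarith

/-- `High` is an open condition -/
lemma high_open {d : ℕ} (hd : Big d) {p : ℝ} (hp : U01 p) (h : High d p) :
    ∃ ε > 0, ∀ q, U01 q → |q - p| ≤ ε → High d q := by
  obtain ⟨n, hn⟩ := h
  have h1 : 1 - 1 / (d : ℝ) ^ 2 ≤ orb d p (n + 1) 0 :=
    g_escape_high hd (orb_mem hp _ _) (orb_mem hp _ _) (orb_mem hp _ _) hn
  have hpos := hd.pos
  have hc := hd.cast
  have h2 := hd.eta_le
  refine ⟨1 / 2 / ((d : ℝ) ^ 2) ^ (n + 1), by positivity, fun q hq hqp => ⟨n + 1, ?_⟩⟩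
  have h3 := orb_lip_p (d := d) hp hq (n + 1) 0
  have h4 : ((d : ℝ) ^ 2) ^ (n + 1) * |q - p| ≤ 1 / 2 := by
    calc ((d : ℝ) ^ 2) ^ (n + 1) * |q - p| ≤ ((d : ℝ) ^ 2) ^ (n + 1) *
        (1 / 2 / ((d : ℝ) ^ 2) ^ (n + 1)) := by gcongr
      _ = 1 / 2 := by field_simp
  have h5 := (abs_le.1 (h3.trans h4)).1
  linarith

lemma low_zero {d : ℕ} (hd : Big d) : Low d 0 := by
  refine ⟨0, ?_⟩
  have := hd.pos
  simp only [orb, prof]
  simp
  positivity

lemma high_one {d : ℕ} : High d 1 := by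
  refine ⟨0, ?_⟩
  simp only [orb, prof]
  norm_num

/-- existence of the critical point -/
lemma exists_crit {d : ℕ} (hd : Big d) :
    ∃ pc : ℝ, 0 < pc ∧ pc < 1 ∧ ¬ Low d pc ∧ ¬ High d pc ∧
      (∀ p, 0 ≤ p → p < pc → Low d p) ∧ (∀ p, pc < p → p ≤ 1 → High d p) := by
  set S : Set ℝ := {p | U01 p ∧ Low d p} with hS
  have hne : S.Nonempty := ⟨0, U01_zero, low_zero hd⟩
  have hbdd : BddAbove S := ⟨1, fun p hp => hp.1.2⟩
  set pc := sSup S with hpc
  have h0 : 0 ≤ pc := le_csSup hbdd ⟨U01_zero, low_zero hd⟩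
  have h1 : pc ≤ 1 := csSup_le hne fun p hp => hp.1.2
  have hpcU : U01 pc := ⟨h0, h1⟩
  have hbelow : ∀ p, 0 ≤ p → p < pc → Low d p := by
    intro p hp0 hp
    obtain ⟨q, hq, hpq⟩ := exists_lt_of_lt_csSup hne hp
    exact low_mono ⟨hp0, hp.le.trans h1⟩ hq.1 hpq.le hq.2
  have hnl : ¬ Low d pc := by
    intro h
    obtain ⟨ε, hε, hε'⟩ := low_open hd hpcU h
    rcases lt_or_eq_of_le h1 with h2 | h2
    · set q := min 1 (pc + ε) with hq
      have hq1 : pc < q := lt_min h2 (by linarith)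
      have hq2 : q ≤ 1 := min_le_left _ _
      have hq3 : q ≤ pc + ε := min_le_right _ _
      have hqU : U01 q := ⟨by linarith, hq2⟩
      have hLow := hε' q hqU (by rw [abs_le]; constructor <;> linarith)
      have : q ≤ pc := le_csSup hbdd ⟨hqU, hLow⟩
      linarith
    · rw [h2] at h
      exact not_low_high hd U01_one h high_one
  have hnh : ¬ High d pc := by
    intro h
    obtain ⟨ε, hε, hε'⟩ := high_open hd hpcU h
    have hpc0 : 0 < pc := by
      rcases lt_or_eq_of_le h0 with h2 | h2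
      · exact h2
      · rw [← h2] at h
        exact absurd h (fun h => not_low_high hd U01_zero (low_zero hd) h)
    set q := max 0 (pc - ε) with hq
    have hq1 : q < pc := max_lt hpc0 (by linarith)
    have hq2 : 0 ≤ q := le_max_left _ _
    have hq3 : pc - ε ≤ q := le_max_right _ _
    have hqU : U01 q := ⟨hq2, by linarith⟩
    have hHigh := hε' q hqU (by rw [abs_le]; constructor <;> linarith)
    exact not_low_high hd hqU (hbelow q hq2 hq1) hHigh
  have habove : ∀ p, pc < p → p ≤ 1 → High d p := by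
    intro p hp hp1
    by_contra hcon
    have hpU : U01 p := ⟨by linarith, hp1⟩
    have hnl' : ¬ Low d p := by
      intro h
      have : p ≤ pc := le_csSup hbdd ⟨hpU, h⟩
      linarith
    exact unique_window hd hpcU hpU hnl hnh hnl' hcon hp
  refine ⟨pc, ?_, ?_, hnl, hnh, hbelow, habove⟩
  · rcases lt_or_eq_of_le h0 with h2 | h2
    · exact h2
    · exact absurd (low_zero hd) (by rw [h2]; exact hnl)
  · rcases lt_or_eq_of_le h1 with h2 | h2
    · exact h2
    · exact absurd high_one (by rw [← h2]; exact hnh)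

end

end Pool.Agent.H95.MinMax
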