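import Pool.Agent.H95.MinMaxB

/-!
The noisy min-max tree game: identification of the law of the root value.
-/

namespace Pool.Agent.H95.MinMax

open MeasureTheory ProbabilityTheory Filter Topology
open scoped ENNReal

noncomputable section

instance : IsProbabilityMeasure cookieLaw := by
  constructor
  simp only [cookieLaw, Measure.coe_add, Measure.coe_smul, Pi.add_apply, Pi.smul_apply,
    measure_univ, smul_eq_mul, mul_one]
  rw [one_div, ENNReal.inv_two_add_inv_two]

lemma boundary_prob {p : ℝ} (hp : U01 p) : IsProbabilityMeasure (boundaryLaw p) := by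
  constructor
  simp only [boundaryLaw, Measure.coe_add, Measure.coe_smul, Pi.add_apply, Pi.smul_apply,
    measure_univ, smul_eq_mul, mul_one]
  rw [← ENNReal.ofReal_add hp.1 (by linarith [hp.2])]
  simp

lemma sum_prob {d : ℕ} {p : ℝ} (hp : U01 p) (i : Vertex d ⊕ Vertex d) :
    IsProbabilityMeasure ((Sum.elim (fun _ : Vertex d => cookieLaw)
      (fun _ : Vertex d => boundaryLaw p)) i) := by
  rcases i with i | i
  · simp only [Sum.elim_inl]; infer_instance
  · simp only [Sum.elim_inr]; exact boundary_prob hp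

lemma game_prob {d : ℕ} {p : ℝ} (hp : U01 p) : IsProbabilityMeasure (gameMeasure d p) := by
  have := fun i => sum_prob (d := d) hp i
  unfold gameMeasure
  infer_instance

/-- the coordinate sigma-algebras -/
def msp (d : ℕ) (i : Vertex d ⊕ Vertex d) : MeasurableSpace (Sample d) :=
  MeasurableSpace.comap (fun ω : Sample d => ω i) inferInstance

lemma msp_le (d : ℕ) (i : Vertex d ⊕ Vertex d) : msp d i ≤ MeasurableSpace.pi := by
  unfold msp
  exact (measurable_pi_apply i).comap_le

lemma msp_indep {d : ℕ} {p : ℝ} (hp : U01 p) : iIndep (msp d) (gameMeasure d p) := by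
  have := fun i => sum_prob (d := d) hp i
  have h := iIndepFun_infinitePi (P := Sum.elim (fun _ : Vertex d => cookieLaw)
    (fun _ : Vertex d => boundaryLaw p)) (X := fun _ x => x) (fun _ => measurable_id)
  exact h.iIndep

/-- general product formula for events depending on disjoint sets of coordinates -/
lemma prod_indep {Ω ι κ : Type*} {mΩ : MeasurableSpace Ω} {m : ι → MeasurableSpace Ω}
    {P : Measure Ω} (h_le : ∀ i, m i ≤ mΩ) (h : iIndep m P) (S : κ → Set ι)
    (hS : Pairwise (Function.onFun Disjoint S)) (A : κ → Set Ω)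
    (hA : ∀ c, MeasurableSet[⨆ i ∈ S c, m i] (A c)) (t : Finset κ) :
    P (⋂ c ∈ t, A c) = ∏ c ∈ t, P (A c) := by
  classical
  have := h.isProbabilityMeasure
  induction t using Finset.induction_on with
  | empty => simp
  | insert c t hc ih =>
    rw [Finset.set_biInter_insert, Finset.prod_insert hc, ← ih]
    have hdisj : Disjoint (S c) (⋃ c' ∈ t, S c') := by
      rw [Set.disjoint_iUnion₂_right]
      intro c' hc'
      exact hS (fun h => hc (h ▸ hc'))
    have hind := indep_iSup_of_disjoint h_le h hdisj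
    apply (Indep_iff _ _ _).1 hind _ _ (hA c)
    apply Finset.measurableSet_biInter
    intro c' hc'
    have hle : (⨆ i ∈ S c', m i) ≤ ⨆ i ∈ ⋃ c' ∈ t, S c', m i :=
      biSup_mono fun i hi => Set.mem_biUnion hc' hi
    exact hle _ (hA c')

/-- coordinates strictly inside the subtree of `v`, plus all boundary values of the subtree -/
def subS {d : ℕ} (v : Vertex d) : Set (Vertex d ⊕ Vertex d) :=
  {i | (∃ w, i = Sum.inl w ∧ v <:+ w ∧ w ≠ v) ∨ (∃ w, i = Sum.inr w ∧ v <:+ w)}

/-- the same plus the cookie of `v` -/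
def subT {d : ℕ} (v : Vertex d) : Set (Vertex d ⊕ Vertex d) :=
  {i | (∃ w, i = Sum.inl w ∧ v <:+ w) ∨ (∃ w, i = Sum.inr w ∧ v <:+ w)}

lemma subT_child_subset {d : ℕ} (v : Vertex d) (c : Fin d) : subT (c :: v) ⊆ subS v := by
  rintro i (⟨w, rfl, hw⟩ | ⟨w, rfl, hw⟩)
  · left
    refine ⟨w, rfl, (List.suffix_cons c v).trans hw, ?_⟩
    rintro rfl
    have := hw.length_le
    simp at this
  · right
    exact ⟨w, rfl, (List.suffix_cons c v).trans hw⟩

lemma subS_subset_subT {d : ℕ} (v : Vertex d) : subS v ⊆ subT v := by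
  rintro i (⟨w, rfl, hw, _⟩ | ⟨w, rfl, hw⟩)
  · exact Or.inl ⟨w, rfl, hw⟩
  · exact Or.inr ⟨w, rfl, hw⟩

lemma subT_disjoint {d : ℕ} (v : Vertex d) :
    Pairwise (Function.onFun Disjoint (fun c : Fin d => subT (c :: v))) := by
  intro c c' hcc
  rw [Function.onFun, Set.disjoint_left]
  rintro i hi hi'
  have key : ∀ w : Vertex d, (c :: v) <:+ w → (c' :: v) <:+ w → False := by
    intro w h1 h2
    have h3 := List.suffix_of_suffix_length_le h1 h2 (by simp)
    have h4 : (c :: v) = (c' :: v) := h3.eq_of_length (by simp)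
    exact hcc (List.cons.inj h4).1
  rcases hi with ⟨w, rfl, hw⟩ | ⟨w, rfl, hw⟩
  · rcases hi' with ⟨w', h, hw'⟩ | ⟨w', h, hw'⟩
    · rw [Sum.inl.injEq] at h
      subst h
      exact key _ hw hw'
    · simp at h
  · rcases hi' with ⟨w', h, hw'⟩ | ⟨w', h, hw'⟩
    · simp at h
    · rw [Sum.inr.injEq] at h
      subst h
      exact key _ hw hw'

lemma cookie_disjoint {d : ℕ} (v : Vertex d) :
    Disjoint ({Sum.inl v} : Set (Vertex d ⊕ Vertex d)) (subS v) := by
  rw [Set.disjoint_left]
  rintro i hi hi'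
  rw [Set.mem_singleton_iff] at hi
  subst hi
  rcases hi' with ⟨w, h, _, hw⟩ | ⟨w, h, hw⟩
  · rw [Sum.inl.injEq] at h
    exact hw h.symm
  · simp at h

lemma coord_meas {d : ℕ} (S : Set (Vertex d ⊕ Vertex d)) (i : Vertex d ⊕ Vertex d) (hi : i ∈ S) :
    Measurable[⨆ j ∈ S, msp d j] (fun ω : Sample d => ω i) := by
  have h1 : Measurable[msp d i] (fun ω : Sample d => ω i) := comap_measurable _
  exact h1.mono (le_biSup (msp d) hi) le_rfl

lemma V_meas {d : ℕ} (n : ℕ) (m : ℕ) : ∀ v : Vertex d, v.length + m = 2 * n →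
    Measurable[⨆ j ∈ subS v, msp d j] (fun ω : Sample d => V ω n v) := by
  induction m with
  | zero =>
    intro v hv
    have : (fun ω : Sample d => V ω n v) = fun ω => ω (Sum.inr v) := by
      funext ω
      rw [V, if_pos (by omega)]
    rw [this]
    exact coord_meas _ _ (Or.inr ⟨v, rfl, List.suffix_refl v⟩)
  | succ m ih =>
    intro v hv
    have hY : ∀ c : Fin d, Measurable[⨆ j ∈ subS v, msp d j]
        (fun ω : Sample d => ω (Sum.inl (c :: v)) + V ω n (c :: v)) := by
      intro c
      have h1 : Measurable[⨆ j ∈ subS v, msp d j] (fun ω : Sample d => ω (Sum.inl (c :: v))) :=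
        coord_meas _ _ (subT_child_subset v c (Or.inl ⟨_, rfl, List.suffix_refl _⟩))
      have h2 : Measurable[⨆ j ∈ subS v, msp d j] (fun ω : Sample d => V ω n (c :: v)) := by
        have h3 := ih (c :: v) (by simp; omega)
        refine h3.mono ?_ le_rfl
        exact biSup_mono fun i hi => subT_child_subset v c (subS_subset_subT _ hi)
      exact Measurable.add h1 h2
    have hpi : Measurable[⨆ j ∈ subS v, msp d j]
        (fun (ω : Sample d) (c : Fin d) => ω (Sum.inl (c :: v)) + V ω n (c :: v)) :=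
      @measurable_pi_lambda _ _ _ (⨆ j ∈ subS v, msp d j) _ _ hY
    by_cases he : Even v.length
    · have : (fun ω : Sample d => V ω n v) =
          (fun y : Fin d → ℤ => ⨆ c, y c) ∘
          (fun (ω : Sample d) (c : Fin d) => ω (Sum.inl (c :: v)) + V ω n (c :: v)) := by
        funext ω
        rw [V, if_neg (by omega), if_pos he]
        rfl
      rw [this]
      exact (measurable_of_countable _).comp hpi
    · have : (fun ω : Sample d => V ω n v) =
          (fun y : Fin d → ℤ => ⨅ c, y c) ∘
          (fun (ω : Sample d) (c : Fin d) => ω (Sum.inl (c :: v)) + V ω n (c :: v)) := by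
        funext ω
        rw [V, if_neg (by omega), if_neg he]
        rfl
      rw [this]
      exact (measurable_of_countable _).comp hpi

lemma V_meas' {d : ℕ} (n : ℕ) (v : Vertex d) (hv : v.length ≤ 2 * n) :
    Measurable[⨆ j ∈ subS v, msp d j] (fun ω : Sample d => V ω n v) :=
  V_meas n (2 * n - v.length) v (by omega)

lemma sup_le_pi {d : ℕ} (S : Set (Vertex d ⊕ Vertex d)) :
    (⨆ j ∈ S, msp d j) ≤ MeasurableSpace.pi := iSup₂_le fun j _ => msp_le d j

/-- the CDF of the boundary value -/
def bCDF (p : ℝ) (i : ℤ) : ℝ := prof p (i / 2)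

lemma boundary_cdf {p : ℝ} (hp : U01 p) (i : ℤ) :
    (boundaryLaw p).real {x | x ≤ i} = bCDF p i := by
  have h0 : 0 ≤ p := hp.1
  have h1 : 0 ≤ 1 - p := by linarith [hp.2]
  have hb := boundary_prob hp
  rw [measureReal_def]
  simp only [boundaryLaw, Measure.coe_add, Measure.coe_smul, Pi.add_apply, Pi.smul_apply,
    smul_eq_mul]
  rw [Measure.dirac_apply' _ (MeasurableSet.of_discrete), Measure.dirac_apply' _ (MeasurableSet.of_discrete)]
  unfold bCDF prof
  simp only [Set.indicator, Set.mem_ofPred_eq, Pi.one_apply]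
  split_ifs <;> first
    | (exfalso; omega)
    | (simp [ENNReal.toReal_ofReal h0]; done)
    | (rw [mul_one, mul_one, ← ENNReal.ofReal_add h0 h1]; simp)
    | simp

/-- the CDF `m` levels above the boundary -/
def GG (d : ℕ) (p : ℝ) : ℕ → ℤ → ℝ
  | 0 => bCDF p
  | m + 1 => fun i =>
      if Even (m + 1) then (1 / 2 * GG d p m (i - 1) + 1 / 2 * GG d p m (i + 1)) ^ d
      else 1 - (1 - (1 / 2 * GG d p m (i - 1) + 1 / 2 * GG d p m (i + 1))) ^ d

lemma cookie_real (s : ℤ) : cookieLaw.real {x | x = s} =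
    if s = -1 ∨ s = 1 then 1 / 2 else 0 := by
  rw [measureReal_def]
  simp only [cookieLaw, Measure.coe_add, Measure.coe_smul, Pi.add_apply, Pi.smul_apply,
    smul_eq_mul]
  rw [Measure.dirac_apply' _ (MeasurableSet.of_discrete), Measure.dirac_apply' _ (MeasurableSet.of_discrete)]
  simp only [Set.indicator, Set.mem_ofPred_eq, Pi.one_apply]
  by_cases h1 : s = -1
  · subst h1; norm_num
  · by_cases h2 : s = 1
    · subst h2; norm_num
    · have h1' : ¬ (-1 = s) := fun h => h1 h.symm
      have h2' : ¬ (1 = s) := fun h => h2 h.symm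
      simp [h1, h2, h1', h2']

/-- law of `X_u + V(u)` in terms of the law of `V(u)` -/
lemma child_cdf {d : ℕ} {p : ℝ} (hp : U01 p) (n : ℕ) (u : Vertex d) (hu : u.length ≤ 2 * n)
    (i : ℤ) :
    (gameMeasure d p).real {ω | ω (Sum.inl u) + V ω n u ≤ i} =
      1 / 2 * (gameMeasure d p).real {ω | V ω n u ≤ i - 1} +
      1 / 2 * (gameMeasure d p).real {ω | V ω n u ≤ i + 1} := by
  have hprob := game_prob (d := d) hp
  have hsum := fun i => sum_prob (d := d) hp i
  have hVm := V_meas' n u hu
  have hVm' : Measurable (fun ω : Sample d => V ω n u) := hVm.mono (sup_le_pi _) le_rfl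
  have hXm : Measurable (fun ω : Sample d => ω (Sum.inl u)) := measurable_pi_apply _
  have hlaw : ∀ s : ℤ, (gameMeasure d p).real {ω | ω (Sum.inl u) = s} =
      if s = -1 ∨ s = 1 then 1 / 2 else 0 := by
    intro s
    rw [← cookie_real s]
    have h := Measure.infinitePi_map_eval (Sum.elim (fun _ : Vertex d => cookieLaw)
      (fun _ : Vertex d => boundaryLaw p)) (Sum.inl u)
    simp only [Sum.elim_inl] at h
    rw [← h, measureReal_def, measureReal_def, Measure.map_apply (measurable_pi_apply _)
      MeasurableSet.of_discrete]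
    rfl
  have hind : ∀ s t : ℤ, (gameMeasure d p).real ({ω | ω (Sum.inl u) = s} ∩ {ω | V ω n u ≤ t}) =
      (gameMeasure d p).real {ω | ω (Sum.inl u) = s} *
      (gameMeasure d p).real {ω | V ω n u ≤ t} := by
    intro s t
    have h := indep_iSup_of_disjoint (msp_le d) (msp_indep (d := d) hp) (cookie_disjoint u)
    have h2 := (Indep_iff _ _ _).1 h {ω | ω (Sum.inl u) = s} {ω | V ω n u ≤ t} ?_ ?_
    · rw [measureReal_def, measureReal_def, measureReal_def, h2, ENNReal.toReal_mul]
    · have h3 := coord_meas ({Sum.inl u} : Set (Vertex d ⊕ Vertex d)) (Sum.inl u) rfl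
      exact h3 (MeasurableSet.of_discrete (s := {x : ℤ | x = s}))
    · exact hVm (MeasurableSet.of_discrete (s := {x : ℤ | x ≤ t}))
  -- split according to the value of the cookie
  have hA : MeasurableSet {ω : Sample d | ω (Sum.inl u) + V ω n u ≤ i} :=
    (hXm.add hVm') (MeasurableSet.of_discrete (s := {x : ℤ | x ≤ i}))
  have hnull : (gameMeasure d p) {ω | ¬ (ω (Sum.inl u) = -1 ∨ ω (Sum.inl u) = 1)} = 0 := by
    have h : {ω : Sample d | ¬ (ω (Sum.inl u) = -1 ∨ ω (Sum.inl u) = 1)} ⊆
        ⋃ s : {s : ℤ // ¬ (s = -1 ∨ s = 1)}, {ω | ω (Sum.inl u) = s} := by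
      intro ω hω
      rw [Set.mem_iUnion]
      exact ⟨⟨ω (Sum.inl u), hω⟩, rfl⟩
    refine measure_mono_null h ?_
    rw [measure_iUnion_null_iff]
    rintro ⟨s, hs⟩
    have h1 := hlaw s
    rw [if_neg hs, measureReal_eq_zero_iff] at h1
    exact h1
  have hae : {ω : Sample d | ω (Sum.inl u) + V ω n u ≤ i} =ᵐ[gameMeasure d p]
      (({ω | ω (Sum.inl u) = 1} ∩ {ω | V ω n u ≤ i - 1}) ∪
        ({ω | ω (Sum.inl u) = -1} ∩ {ω | V ω n u ≤ i + 1}) : Set (Sample d)) := by
    have : ∀ᵐ ω ∂(gameMeasure d p), (ω (Sum.inl u) = -1 ∨ ω (Sum.inl u) = 1) := hnull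
    filter_upwards [this] with ω hω
    apply propext
    change (ω (Sum.inl u) + V ω n u ≤ i) ↔ ((ω (Sum.inl u) = 1 ∧ V ω n u ≤ i - 1) ∨
      (ω (Sum.inl u) = -1 ∧ V ω n u ≤ i + 1))
    constructor
    · intro h
      rcases hω with h1 | h1
      · right; exact ⟨h1, by omega⟩
      · left; exact ⟨h1, by omega⟩
    · rintro (⟨h1, h2⟩ | ⟨h1, h2⟩) <;> omega
  rw [measureReal_congr hae, measureReal_union, hind, hind, hlaw, hlaw]
  · norm_num
  · rw [Set.disjoint_left]
    rintro ω ⟨h1, _⟩ ⟨h2, _⟩
    simp only [Set.mem_ofPred_eq] at h1 h2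
    omega
  · apply MeasurableSet.inter
    · exact hXm (MeasurableSet.of_discrete (s := {x : ℤ | x = -1}))
    · exact hVm' (MeasurableSet.of_discrete (s := {x : ℤ | x ≤ i + 1}))

lemma GG_mem {d : ℕ} {p : ℝ} (hp : U01 p) (m : ℕ) (i : ℤ) : U01 (GG d p m i) := by
  induction m generalizing i with
  | zero => exact prof_mem hp _
  | succ m ih =>
    have h1 := ih (i - 1)
    have h2 := ih (i + 1)
    have h3 : U01 (1 / 2 * GG d p m (i - 1) + 1 / 2 * GG d p m (i + 1)) :=
      ⟨by linarith [h1.1, h2.1], by linarith [h1.2, h2.2]⟩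
    have h4 : U01 (1 - (1 / 2 * GG d p m (i - 1) + 1 / 2 * GG d p m (i + 1))) :=
      ⟨by linarith [h3.2], by linarith [h3.1]⟩
    simp only [GG]
    split_ifs
    · exact h3.pow d
    · have := h4.pow d
      exact ⟨by linarith [this.2], by linarith [this.1]⟩

/-- the CDF of `V_n(v)` depends only on the number of levels below `v` -/
lemma V_cdf {d : ℕ} (hd : 1 ≤ d) {p : ℝ} (hp : U01 p) (n : ℕ) (m : ℕ) :
    ∀ v : Vertex d, v.length + m = 2 * n → ∀ i : ℤ,
    (gameMeasure d p).real {ω | V ω n v ≤ i} = GG d p m i := by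
  have hprob := game_prob (d := d) hp
  have hsum := fun i => sum_prob (d := d) hp i
  have hne : Nonempty (Fin d) := ⟨⟨0, by omega⟩⟩
  induction m with
  | zero =>
    intro v hv i
    have : {ω : Sample d | V ω n v ≤ i} = (fun ω : Sample d => ω (Sum.inr v)) ⁻¹' {x | x ≤ i} := by
      ext ω
      simp only [Set.mem_ofPred_eq, Set.mem_preimage]
      rw [V, if_pos (by omega)]
    rw [this, ← map_measureReal_apply (measurable_pi_apply _) MeasurableSet.of_discrete]
    have h := Measure.infinitePi_map_eval (Sum.elim (fun _ : Vertex d => cookieLaw)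
      (fun _ : Vertex d => boundaryLaw p)) (Sum.inr v)
    simp only [Sum.elim_inr] at h
    unfold gameMeasure
    rw [h, boundary_cdf hp]
    rfl
  | succ m ih =>
    intro v hv i
    have hlen : ∀ c : Fin d, (c :: v).length + m = 2 * n := by
      intro c; simp only [List.length_cons]; omega
    have hchild : ∀ (c : Fin d) (j : ℤ),
        (gameMeasure d p).real {ω | ω (Sum.inl (c :: v)) + V ω n (c :: v) ≤ j} =
        1 / 2 * GG d p m (j - 1) + 1 / 2 * GG d p m (j + 1) := by
      intro c j
      rw [child_cdf hp n (c :: v) (by have := hlen c; omega), ih _ (hlen c), ih _ (hlen c)]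
    have hYm : ∀ c : Fin d, Measurable[⨆ j ∈ subT (c :: v), msp d j]
        (fun ω : Sample d => ω (Sum.inl (c :: v)) + V ω n (c :: v)) := by
      intro c
      have h1 : Measurable[⨆ j ∈ subT (c :: v), msp d j]
          (fun ω : Sample d => ω (Sum.inl (c :: v))) :=
        coord_meas _ _ (Or.inl ⟨_, rfl, List.suffix_refl _⟩)
      have h2 : Measurable[⨆ j ∈ subT (c :: v), msp d j] (fun ω : Sample d => V ω n (c :: v)) := by
        have h3 := V_meas n m (c :: v) (hlen c)
        refine h3.mono ?_ le_rfl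
        exact biSup_mono fun i hi => subS_subset_subT _ hi
      exact Measurable.add h1 h2
    have hYm' : ∀ c : Fin d, Measurable
        (fun ω : Sample d => ω (Sum.inl (c :: v)) + V ω n (c :: v)) :=
      fun c => (hYm c).mono (sup_le_pi _) le_rfl
    by_cases he : Even v.length
    · have hem : Even (m + 1) := by
        have : Even (v.length + (m + 1)) := by rw [hv]; exact even_two_mul n
        exact (Nat.even_add.1 this).1 he
      have hset : {ω : Sample d | V ω n v ≤ i} =
          ⋂ c ∈ (Finset.univ : Finset (Fin d)),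
            {ω : Sample d | ω (Sum.inl (c :: v)) + V ω n (c :: v) ≤ i} := by
        ext ω
        simp only [Set.mem_ofPred_eq, Finset.mem_univ, Set.iInter_true, Set.mem_iInter]
        rw [V, if_neg (by omega), if_pos he]
        exact ciSup_le_iff (Set.finite_range _).bddAbove
      rw [hset, measureReal_def, prod_indep (msp_le d) (msp_indep hp)
        (fun c : Fin d => subT (c :: v)) (subT_disjoint v)
        (fun c => {ω : Sample d | ω (Sum.inl (c :: v)) + V ω n (c :: v) ≤ i})
        (fun c => hYm c (MeasurableSet.of_discrete (s := {x : ℤ | x ≤ i})))]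
      rw [ENNReal.toReal_prod]
      simp only [GG, if_pos hem]
      have hc : ∀ c : Fin d, ((gameMeasure d p)
          {ω : Sample d | ω (Sum.inl (c :: v)) + V ω n (c :: v) ≤ i}).toReal =
          (1 / 2 * GG d p m (i - 1) + 1 / 2 * GG d p m (i + 1)) := fun c => hchild c i
      rw [Finset.prod_congr rfl (fun c _ => hc c)]
      simp
    · have hem : ¬ Even (m + 1) := by
        intro h
        have : Even (v.length + (m + 1)) := by rw [hv]; exact even_two_mul n
        exact he ((Nat.even_add.1 this).2 h)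
      have hset : {ω : Sample d | V ω n v ≤ i} =
          (⋂ c ∈ (Finset.univ : Finset (Fin d)),
            {ω : Sample d | ω (Sum.inl (c :: v)) + V ω n (c :: v) ≤ i}ᶜ)ᶜ := by
        ext ω
        simp only [Set.mem_compl_iff, Finset.mem_univ, Set.iInter_true, Set.mem_iInter,
          Set.mem_ofPred_eq]
        rw [V, if_neg (by omega), if_neg he]
        rw [← not_lt, not_iff_not, ← Int.add_one_le_iff,
          le_ciInf_iff (Set.finite_range _).bddBelow]
        apply forall_congr'
        intro c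
        omega
      have hmeas : MeasurableSet (⋂ c ∈ (Finset.univ : Finset (Fin d)),
            {ω : Sample d | ω (Sum.inl (c :: v)) + V ω n (c :: v) ≤ i}ᶜ) := by
        apply Finset.measurableSet_biInter
        intro c _
        exact ((hYm' c) (MeasurableSet.of_discrete (s := {x : ℤ | x ≤ i}))).compl
      rw [hset, probReal_compl_eq_one_sub hmeas, measureReal_def,
        prod_indep (msp_le d) (msp_indep hp)
        (fun c : Fin d => subT (c :: v)) (subT_disjoint v)
        (fun c => {ω : Sample d | ω (Sum.inl (c :: v)) + V ω n (c :: v) ≤ i}ᶜ)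
        (fun c => MeasurableSet.compl (hYm c (MeasurableSet.of_discrete (s := {x : ℤ | x ≤ i}))))]
      rw [ENNReal.toReal_prod]
      simp only [GG, if_neg hem]
      have hc : ∀ c : Fin d, ((gameMeasure d p)
          {ω : Sample d | ω (Sum.inl (c :: v)) + V ω n (c :: v) ≤ i}ᶜ).toReal =
          1 - (1 / 2 * GG d p m (i - 1) + 1 / 2 * GG d p m (i + 1)) := by
        intro c
        rw [← hchild c i]
        exact probReal_compl_eq_one_sub ((hYm' c) (MeasurableSet.of_discrete (s := {x : ℤ | x ≤ i})))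
      rw [Finset.prod_congr rfl (fun c _ => hc c)]
      simp

lemma GG_two_steps (d : ℕ) (p : ℝ) (n : ℕ) : GG d p (2 * (n + 1)) = Psi d (GG d p (2 * n)) := by
  have h1 : 2 * (n + 1) = (2 * n + 1) + 1 := by ring
  rw [h1]
  funext i
  have he : Even (2 * n + 1 + 1) := ⟨n + 1, by ring⟩
  have ho : ¬ Even (2 * n + 1) := by
    rw [Nat.not_even_iff_odd]; exact odd_two_mul_add_one n
  simp only [GG, if_pos he, if_neg ho]
  unfold Psi g
  have e1 : i - 1 - 1 = i - 2 := by ring
  have e2 : i - 1 + 1 = i := by ring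
  have e3 : i + 1 - 1 = i := by ring
  have e4 : i + 1 + 1 = i + 2 := by ring
  rw [e1, e2, e3, e4]
  congr 1
  ring

lemma Psi_half (d : ℕ) (f : ℤ → ℝ) : Psi d (fun i => f (i / 2)) = fun i => psi d f (i / 2) := by
  funext i
  unfold Psi psi
  have e1 : (i - 2) / 2 = i / 2 - 1 := by omega
  have e2 : (i + 2) / 2 = i / 2 + 1 := by omega
  simp only [e1, e2]

lemma GG_orb (d : ℕ) (p : ℝ) (n : ℕ) : GG d p (2 * n) = fun i => orb d p n (i / 2) := by
  induction n with
  | zero => rfl
  | succ n ih => rw [GG_two_steps, ih, Psi_half]; rfl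

/-- identification of the CDF of the root value -/
theorem rootCDF_eq {d : ℕ} (hd : 1 ≤ d) {p : ℝ} (hp : U01 p) (n : ℕ) (i : ℤ) :
    rootCDF d p n i = orb d p n (i / 2) := by
  unfold rootCDF
  rw [V_cdf hd hp n (2 * n) [] (by simp), GG_orb]

end

end Pool.Agent.H95.MinMax
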