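import Mathlib

/-!
# The noisy min-max tree game (definitions)

Cookies and boundary values on the infinite rooted `d`-ary tree, the value `V_n(v)`, the CDF of the
root value, the two-level map `Ψ`, stable fixed points, the limit law `L₀` and critical points.
-/

namespace Pool.Agent.H95.MinMax

open MeasureTheory ProbabilityTheory Filter Topology
open scoped ENNReal

noncomputable section

/-- Vertices of the infinite rooted `d`-ary tree: the root is `[]`, the children of `v` are the
lists `c :: v` with `c : Fin d`, and the height of `v` is `v.length`. -/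
abbrev Vertex (d : ℕ) : Type := List (Fin d)

/-- Sample points: `ω (Sum.inl v)` is the cookie on the edge from `v` to its parent and
`ω (Sum.inr v)` is the boundary value offered at `v`. -/
abbrev Sample (d : ℕ) : Type := Vertex d ⊕ Vertex d → ℤ

/-- The uniform law on `{-1, 1}`. -/
def cookieLaw : Measure ℤ :=
  (1 / 2 : ℝ≥0∞) • Measure.dirac (-1) + (1 / 2 : ℝ≥0∞) • Measure.dirac 1

/-- The boundary law: `0` with probability `p` and `2` with probability `1 - p`. -/
def boundaryLaw (p : ℝ) : Measure ℤ :=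
  ENNReal.ofReal p • Measure.dirac 0 + ENNReal.ofReal (1 - p) • Measure.dirac 2

/-- All cookies and all boundary values are independent, with the laws above. -/
def gameMeasure (d : ℕ) (p : ℝ) : Measure (Sample d) :=
  Measure.infinitePi (Sum.elim (fun _ : Vertex d => cookieLaw) (fun _ : Vertex d => boundaryLaw p))

/-- The value `V_n(v)`: the boundary value at height `2 n`, and below that height the maximum
(even height) or the minimum (odd height) over the children `u` of `X_u + V_n(u)`. -/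
def V {d : ℕ} (ω : Sample d) (n : ℕ) (v : Vertex d) : ℤ :=
  if 2 * n ≤ v.length then ω (Sum.inr v)
  else if Even v.length then ⨆ c : Fin d, (ω (Sum.inl (c :: v)) + V ω n (c :: v))
  else ⨅ c : Fin d, (ω (Sum.inl (c :: v)) + V ω n (c :: v))
termination_by 2 * n - v.length

/-- The CDF of the root value `V_n^{(p)} = V_n(root)`. -/
def rootCDF (d : ℕ) (p : ℝ) (n : ℕ) (i : ℤ) : ℝ :=
  (gameMeasure d p).real {ω | V ω n [] ≤ i}

/-- The function `g` of the problem. -/
def g (d : ℕ) (x y z : ℝ) : ℝ :=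
  (1 - 1 / 2 * (1 - (x + y) / 2) ^ d - 1 / 2 * (1 - (y + z) / 2) ^ d) ^ d

/-- The map `Ψ` on functions `ℤ → ℝ`. -/
def Psi (d : ℕ) (F : ℤ → ℝ) : ℤ → ℝ := fun i => g d (F (i - 2)) (F i) (F (i + 2))

/-- `F` is the CDF of a probability law on `ℤ`. -/
def IsCDF (F : ℤ → ℝ) : Prop :=
  Monotone F ∧ Tendsto F atBot (𝓝 0) ∧ Tendsto F atTop (𝓝 1)

/-- Convergence of a sequence of CDFs on `ℤ` to the CDF `G`, i.e. at every integer. -/
def ConvergesTo (F : ℕ → ℤ → ℝ) (G : ℤ → ℝ) : Prop :=
  ∀ i : ℤ, Tendsto (fun n => F n i) atTop (𝓝 (G i))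

/-- `F` is a stable fixed point of `Ψ`: it is fixed, and every CDF close enough to `F` in sup norm
has `Ψ`-iterates converging to `F`. -/
def IsStableFixedPoint (d : ℕ) (F : ℤ → ℝ) : Prop :=
  Psi d F = F ∧ ∃ ε > 0, ∀ G : ℤ → ℝ, IsCDF G → (∀ i, |G i - F i| ≤ ε) →
    ConvergesTo (fun n => (Psi d)^[n] G) F

/-- `F` is an unstable fixed point of `Ψ`. -/
def IsUnstableFixedPoint (d : ℕ) (F : ℤ → ℝ) : Prop :=
  Psi d F = F ∧ ¬ IsStableFixedPoint d F

/-- `L` is (the CDF of) the limit law `L₀` of `V_n^{(1)}`. -/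
def IsLZero (d : ℕ) (L : ℤ → ℝ) : Prop := IsCDF L ∧ ConvergesTo (rootCDF d 1) L

/-- The CDF of the law with CDF `L` shifted by `+2`. -/
def shiftTwo (L : ℤ → ℝ) : ℤ → ℝ := fun i => L (i - 2)

/-- `pc ∈ (0,1)` is a critical point: `V_n^{(p)}` converges in distribution to `L₀` for all `p` on
one side of `pc` and to `L₀ + 2` for all `p` on the other side. -/
def IsCritical (d : ℕ) (pc : ℝ) : Prop :=
  0 < pc ∧ pc < 1 ∧ ∃ L : ℤ → ℝ, IsLZero d L ∧
    (((∀ p, 0 ≤ p → p < pc → ConvergesTo (rootCDF d p) (shiftTwo L)) ∧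
        (∀ p, pc < p → p ≤ 1 → ConvergesTo (rootCDF d p) L)) ∨
      ((∀ p, 0 ≤ p → p < pc → ConvergesTo (rootCDF d p) L) ∧
        (∀ p, pc < p → p ≤ 1 → ConvergesTo (rootCDF d p) (shiftTwo L))))

end

end Pool.Agent.H95.MinMax
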